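import Pool.Agent.Helper94_PP.StmtsKR

/-!
Statement of the counting lemma (CL): the number of irreducible modular characters of `H` on which
a class function supported on a normal subgroup `L` acts as the identity.
-/

open scoped BigOperators

noncomputable section

namespace Pool.Agent.PP

variable {F H : Type} [Field F] [Group H]

/-- `IsTC L φ x y c` : for a representation `ρ` of `L` with trace `φ` and matrices `X`, `Y` which
implement the conjugations by `x` and `y`, one has `X Y = c ρ(x y x⁻¹ y⁻¹) Y X`. -/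
def IsTC (L : Subgroup H) [L.Normal] (φ : L → F) (x y : H) (c : F) : Prop :=
  ∃ (n : ℕ) (ρ : L →* Matrix (Fin n) (Fin n) F) (X Y : Matrix (Fin n) (Fin n) F)
    (hk : x * y * x⁻¹ * y⁻¹ ∈ L), IsIrr ρ ∧ tr ρ = φ ∧ IsUnit X ∧ IsUnit Y ∧
      (∀ g : L, X * ρ g = ρ (MulAut.conjNormal x g) * X) ∧
      (∀ g : L, Y * ρ g = ρ (MulAut.conjNormal y g) * Y) ∧
      X * Y = c • (ρ ⟨x * y * x⁻¹ * y⁻¹, hk⟩ * Y * X)

/-- The scalar `c_φ(x, y)`. -/
def tc (L : Subgroup H) [L.Normal] (φ : L → F) (x y : H) : F :=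
  open Classical in if h : ∃ c, IsTC L φ x y c then h.choose else 0

/-- the irreducible modular characters of `L` fixed by `x` and `y` on which `a` acts as the
identity -/
def phiSet (L : Subgroup H) [L.Normal] (a : H → F) (x y : H) : Set (L → F) :=
  {φ | φ ∈ IBr F L ∧ actF (fun t : L => a t) φ = φ ∧ (∀ l, φ (MulAut.conjNormal x l) = φ l) ∧
    ∀ l, φ (MulAut.conjNormal y l) = φ l}

/-- the sum of the lifted scalars -/
def csum (τ : F → ℂ) (L : Subgroup H) [L.Normal] (a : H → F) (x y : H) : ℂ :=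
  ∑ᶠ φ ∈ phiSet L a x y, τ (tc L φ x y)

/-- a lift of the nonzero scalars to complex numbers -/
structure IsLift (τ : F → ℂ) : Prop where
  one : τ 1 = 1
  mul : ∀ a b, a ≠ 0 → b ≠ 0 → τ (a * b) = τ a * τ b
  inj : ∀ a, a ≠ 0 → τ a = 1 → a = 1

/-- CL: the counting lemma. -/
def ClStmt : Prop := ∀ (ℓ : ℕ) (F : Type) [Field F], GoodF ℓ F → ∀ (τ : F → ℂ), IsLift τ →
  ∀ (H : Type) [Group H] [Finite H] (L : Subgroup H) [L.Normal] (a : H → F), IsCl a →
  (∀ h, h ∉ L → a h = 0) →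
  (Nat.card H : ℂ) * Nat.card L * ({θ : H → F | θ ∈ IBr F H ∧ actF a θ = θ}.ncard : ℂ) =
    ∑ᶠ (x : H) (y : H) (_ : Reg ℓ (x : H ⧸ L) ∧ x * y * x⁻¹ * y⁻¹ ∈ L), csum τ L a x y

/-- CLU: existence and uniqueness of the scalars, and their computation from any choice of the
representation and the matrices. -/
def CluStmt : Prop := ∀ (ℓ : ℕ) (F : Type) [Field F], GoodF ℓ F →
  ∀ (H : Type) [Group H] [Finite H] (L : Subgroup H) [L.Normal] (φ : L → F), φ ∈ IBr F L →
  ∀ x y : H, x * y * x⁻¹ * y⁻¹ ∈ L →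
  (∀ l, φ (MulAut.conjNormal x l) = φ l) → (∀ l, φ (MulAut.conjNormal y l) = φ l) →
  tc L φ x y ≠ 0 ∧ IsTC L φ x y (tc L φ x y) ∧ ∀ c, IsTC L φ x y c → c = tc L φ x y

end Pool.Agent.PP
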