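import Pool.Agent.Helper58_CL.Cl
import Pool.Agent.Helper58_CL.Stmt

/-!
The counting lemma: final form.
-/

open scoped BigOperators

set_option linter.unusedSectionVars false
set_option linter.unusedVariables false

noncomputable section

namespace Pool.Agent.Helper58_CL

open Pool.Agent.PP

variable {F : Type} [Field F] {H : Type} [Group H] {L : Subgroup H} [L.Normal] {ℓ : ℕ} [Finite H]
  {a : H → F}

theorem comm_mul (x y : H) (hk : x * y * x⁻¹ * y⁻¹ ∈ L) :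
    ((⟨x * y * x⁻¹ * y⁻¹, hk⟩ : L) : H) * y * x = x * y := by
  show x * y * x⁻¹ * y⁻¹ * y * x = x * y
  group

/-- the scalar for given implementers -/
theorem exists_scalar {n : ℕ} {ρ : L →* Matrix (Fin n) (Fin n) F} (hρ : IsIrr ρ) {x y : H}
    {X Y : Matrix (Fin n) (Fin n) F} (hX : Imp ρ x X) (hY : Imp ρ y Y)
    (hk : x * y * x⁻¹ * y⁻¹ ∈ L) :
    ∃ c : F, c ≠ 0 ∧ X * Y = c • (ρ ⟨x * y * x⁻¹ * y⁻¹, hk⟩ * Y * X) := by
  have h1 := ((Imp.coe (ρ := ρ) ⟨x * y * x⁻¹ * y⁻¹, hk⟩).mul hY).mul hX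
  rw [comm_mul] at h1
  obtain ⟨c, hc, he⟩ := Imp.uniq hρ h1 (hX.mul hY)
  exact ⟨c, hc, he⟩

theorem exists_tc (hC : IbcStmt) (hF : GoodF ℓ F) {φ : L → F} (hφ : φ ∈ IBr F L) {x y : H}
    (hk : x * y * x⁻¹ * y⁻¹ ∈ L) (hx : ∀ l, φ (MulAut.conjNormal x l) = φ l)
    (hy : ∀ l, φ (MulAut.conjNormal y l) = φ l) : ∃ c, c ≠ 0 ∧ IsTC L φ x y c := by
  obtain ⟨n, ρ, hρ, rfl⟩ := hφ
  obtain ⟨X, hX⟩ := exists_imp hC hF hρ hx
  obtain ⟨Y, hY⟩ := exists_imp hC hF hρ hy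
  obtain ⟨c, hc, he⟩ := exists_scalar hρ hX hY hk
  exact ⟨c, hc, n, ρ, X, Y, hk, hρ, rfl, hX.unit, hY.unit, hX.eq, hY.eq, he⟩

theorem tc_unique (hC : IbcStmt) (hF : GoodF ℓ F) {φ : L → F} {x y : H} {c d : F}
    (h1 : IsTC L φ x y c) (h2 : IsTC L φ x y d) : c = d := by
  obtain ⟨n, ρ, X, Y, hk, hρ, htr, hX, hY, hX', hY', he⟩ := h1
  obtain ⟨m, σ, X2, Y2, _, hσ, htr2, hX2, hY2, hX2', hY2', he2⟩ := h2
  obtain ⟨P, P', hn, hP1, hP2, hP3⟩ := hC ℓ F hF L m n σ ρ hσ hρ (htr2.trans htr.symm)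
  subst hn
  let u : (Matrix (Fin m) (Fin m) F)ˣ := ⟨P, P', hP1, hP2⟩
  have hu : ∀ g, (u : Matrix (Fin m) (Fin m) F) * σ g = ρ g * u := hP3
  have iX : Imp σ x X2 := ⟨hX2, hX2'⟩
  have iY : Imp σ y Y2 := ⟨hY2, hY2'⟩
  have jX := iX.conj u hu
  have jY := iY.conj u hu
  obtain ⟨r, hr, hrX⟩ := Imp.uniq hρ ⟨hX, hX'⟩ jX
  obtain ⟨s, hs, hsY⟩ := Imp.uniq hρ ⟨hY, hY'⟩ jY
  set k : L := ⟨x * y * x⁻¹ * y⁻¹, hk⟩ with hkk
  have e1 : (u.val * X2 * (u⁻¹).val) * (u.val * Y2 * (u⁻¹).val) = u.val * (X2 * Y2) * (u⁻¹).val := by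
    simp only [mul_assoc, Units.inv_mul_cancel_left]
  have e2 : u.val * (σ k * Y2 * X2) * (u⁻¹).val =
      ρ k * (u.val * Y2 * (u⁻¹).val) * (u.val * X2 * (u⁻¹).val) := by
    simp only [mul_assoc, Units.inv_mul_cancel_left]
    rw [← mul_assoc u.val, hu]
    simp only [mul_assoc]
  have e3 : (r • X) * (s • Y) = d • (ρ k * (s • Y) * (r • X)) := by
    rw [← hrX, ← hsY, e1, he2, ← e2, Matrix.mul_smul, Matrix.smul_mul]
  have e4 : (r * s) • (X * Y) = (r * s) • (d • (ρ k * Y * X)) := by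
    have l1 : (r • X) * (s • Y) = (r * s) • (X * Y) := by
      rw [Matrix.smul_mul, Matrix.mul_smul, smul_smul]
    have l2 : d • (ρ k * (s • Y) * (r • X)) = (r * s) • (d • (ρ k * Y * X)) := by
      rw [Matrix.mul_smul, Matrix.mul_smul, Matrix.smul_mul, smul_smul, smul_smul, smul_smul]
      congr 1
      ring
    rw [← l1, ← l2, e3]
  have hrs : r * s ≠ 0 := mul_ne_zero hr hs
  have e5 : X * Y = d • (ρ k * Y * X) := smul_right_injective _ hrs e4
  rw [he] at e5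
  have h6 : (c - d) • (ρ k * Y * X) = 0 := by rw [sub_smul, e5, sub_self]
  rcases smul_eq_zero.1 h6 with h7 | h7
  · exact sub_eq_zero.1 h7
  · have h8 : IsUnit (ρ k * Y * X) := ((isUnit_rep k).mul hY).mul hX
    rw [h7] at h8
    have : Nonempty (Fin m) := ⟨⟨0, hρ.1⟩⟩
    exact absurd h8 not_isUnit_zero

/-- CLU -/
theorem clu (hC : IbcStmt) : CluStmt := by
  intro ℓ F _ hF H _ _ L _ φ hφ x y hk hx hy
  obtain ⟨c, hc, h⟩ := exists_tc hC hF hφ hk hx hy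
  have h1 : ∃ c, IsTC L φ x y c := ⟨c, h⟩
  have h2 : tc L φ x y = h1.choose := by rw [tc, dif_pos h1]
  have h3 : IsTC L φ x y (tc L φ x y) := by
    rw [h2]
    exact h1.choose_spec
  refine ⟨?_, h3, fun d hd => tc_unique hC hF hd h3⟩
  rw [tc_unique hC hF h3 h]
  exact hc

/-- the scalars of the monomial action are the scalars `c_φ(x, y)` -/
theorem uu_eq (hy : Hyp ℓ F) (ha : IsCl a) (p : Idx ℓ L a) (x y : H) (hx : (x : H ⧸ L) = p.1.1)
    (hp : letI := idxAction hy (L := L) ha; y • p = p) (hk : x * y * x⁻¹ * y⁻¹ ∈ L)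
    (hsx : ∀ l, p.1.2.1 (MulAut.conjNormal x l) = p.1.2.1 l)
    (hsy : ∀ l, p.1.2.1 (MulAut.conjNormal y l) = p.1.2.1 l) :
    uu hy y⁻¹ p = tc L p.1.2.1 x y := by
  let _ := idxAction hy (L := L) ha
  have hp' : y⁻¹ • p = p := by rw [inv_smul_eq_iff]; exact hp.symm
  have h1 : ∀ g, fi p (y * g * y⁻¹) = uu hy y⁻¹ p * fi p g := by
    intro g
    have h2 := uu_spec hy ha y⁻¹ p g
    rw [inv_inv, hp'] at h2
    exact h2
  set φ := p.1.2 with hφ
  set ρ := repOf φ with hρd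
  have hρ : IsIrr ρ := repOf_irr φ
  have htr : tr ρ = φ.1 := repOf_tr φ
  obtain ⟨X, hX⟩ := exists_imp hy.ibc hy.hF hρ (x := x) (by rw [htr]; exact hsx)
  obtain ⟨Y, hY⟩ := exists_imp hy.ibc hy.hF hρ (x := y) (by rw [htr]; exact hsy)
  obtain ⟨c, hc, he⟩ := exists_scalar hρ hX hY hk
  have htc : tc L φ.1 x y = c := by
    symm
    exact (clu hy.ibc ℓ F hy.hF H L φ.1 φ.2 x y hk hsx hsy).2.2 c
      ⟨_, ρ, X, Y, hk, hρ, htr, hX.unit, hY.unit, hX.eq, hY.eq, he⟩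
  rw [htc]
  obtain ⟨d, hd, hdd⟩ := ff_uniq hy.ibc hy.hF hρ htr hX
  rw [hx] at hdd
  have h3 : ∀ g, tw ρ x X (y * g * y⁻¹) = uu hy y⁻¹ p * tw ρ x X g := by
    intro g
    rw [hdd, hdd]
    have := h1 g
    unfold fi at this
    rw [this]
    ring
  obtain ⟨g, hg⟩ := tw_ne_zero hρ (x := x) hX.unit
  have hgl : x⁻¹ * g ∈ L := by
    by_contra hcon
    exact hg (tw_not hcon)
  set l : L := ⟨_, hgl⟩ with hl
  have hgx : g = x * l := by simp [hl]
  have hk' : x⁻¹ * y * x * y⁻¹ ∈ L := by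
    have h4 := L.inv_mem hk
    have h5 := Subgroup.Normal.conj_mem (inferInstance : L.Normal) _ h4 x⁻¹
    have h6 : x⁻¹ * (x * y * x⁻¹ * y⁻¹)⁻¹ * x⁻¹⁻¹ = x⁻¹ * y * x * y⁻¹ := by group
    rwa [h6] at h5
  have h4 : tw ρ x X (y * g * y⁻¹) = c * tw ρ x X g := by
    have e1 : y * g * y⁻¹ = x * ((⟨_, hk'⟩ * MulAut.conjNormal y l : L) : H) := by
      rw [hgx]
      show _ = x * ((x⁻¹ * y * x * y⁻¹) * (y * l * y⁻¹))
      group
    rw [e1, tw_mul, map_mul]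
    conv_rhs => rw [hgx, tw_mul]
    obtain ⟨v, hv⟩ := hY.unit
    have e2 : ρ (MulAut.conjNormal y l) = Y * ρ l * (v⁻¹).val := by
      rw [hY.eq, mul_assoc, ← hv, Units.mul_inv, mul_one]
    have e3 : X * ρ ⟨_, hk'⟩ * Y = c • (Y * X) := by
      rw [hX.eq]
      have e4 : MulAut.conjNormal x (⟨_, hk'⟩ : L) = (⟨_, hk⟩ : L)⁻¹ := by
        ext
        show x * (x⁻¹ * y * x * y⁻¹) * x⁻¹ = (x * y * x⁻¹ * y⁻¹)⁻¹
        group
      rw [e4, mul_assoc, he, Matrix.mul_smul, ← mul_assoc, ← mul_assoc, ← map_mul, inv_mul_cancel,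
        map_one, one_mul]
    rw [e2]
    have e5 : X * (ρ ⟨_, hk'⟩ * (Y * ρ l * (v⁻¹).val)) =
        (X * ρ ⟨_, hk'⟩ * Y) * ρ l * (v⁻¹).val := by
      simp only [mul_assoc]
    rw [e5, e3, Matrix.trace_mul_comm, ← mul_assoc, Matrix.mul_smul, ← mul_assoc, ← hv,
      Units.inv_mul, one_mul, Matrix.smul_mul, Matrix.trace_smul, smul_eq_mul]
  rw [h3] at h4
  exact mul_right_cancel₀ hg h4

theorem sum_quot [Fintype H] [Fintype (H ⧸ L)] (g : H ⧸ L → ℂ) :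
    ∑ x : H, g (x : H ⧸ L) = (Nat.card L : ℂ) * ∑ c : H ⧸ L, g c := by
  classical
  rw [← Finset.sum_fiberwise (s := Finset.univ) (g := fun x : H => (x : H ⧸ L)), Finset.mul_sum]
  apply Finset.sum_congr rfl
  intro c _
  rw [Finset.sum_congr rfl (g := fun _ => g c)]
  · rw [Finset.sum_const, nsmul_eq_mul]
    congr 2
    rw [← Fintype.card_subtype, ← Nat.card_eq_fintype_card]
    apply Nat.card_congr
    refine ⟨fun x => ⟨c.out⁻¹ * x.1, ?_⟩, fun l => ⟨c.out * l, ?_⟩, ?_, ?_⟩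
    · rw [← QuotientGroup.eq, QuotientGroup.out_eq', x.2]
    · rw [QuotientGroup.mk_mul, QuotientGroup.out_eq', (QuotientGroup.eq_one_iff (l : H)).2 l.2,
        mul_one]
    · intro x
      apply Subtype.ext
      simp
    · intro l
      apply Subtype.ext
      simp
  · intro x hx
    rw [Finset.mem_filter] at hx
    rw [hx.2]

theorem st_iff (hC : IbcStmt) (hF : GoodF ℓ F) {x : H} {φ : IBr F L} :
    St (x : H ⧸ L) φ ↔ ∀ l, φ.1 (MulAut.conjNormal x l) = φ.1 l := by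
  rw [st_mk]
  constructor
  · rintro ⟨X, hX⟩ l
    have h1 := hX.trace_eq l
    rwa [repOf_tr] at h1
  · intro h
    exact exists_imp hC hF (repOf_irr φ) (by rw [repOf_tr]; exact h)

theorem cIBr_eq_iff {y : H} {φ : IBr F L} :
    cIBr y φ = φ ↔ ∀ l, φ.1 (MulAut.conjNormal y l) = φ.1 l := by
  constructor
  · intro h l
    have h1 := congrFun (congrArg Subtype.val h) (MulAut.conjNormal y l)
    rw [cIBr_apply] at h1
    have e1 : MulAut.conjNormal y⁻¹ (MulAut.conjNormal y l) = l := by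
      ext
      simp [mul_assoc]
    rw [e1] at h1
    exact h1.symm
  · intro h
    apply Subtype.ext
    funext l
    rw [cIBr_apply, ← h]
    have e1 : MulAut.conjNormal y (MulAut.conjNormal y⁻¹ l) = l := by
      ext
      simp [mul_assoc]
    rw [e1]

theorem quot_comm {x y : H} :
    (y : H ⧸ L) * (x : H ⧸ L) * (y : H ⧸ L)⁻¹ = (x : H ⧸ L) ↔ x * y * x⁻¹ * y⁻¹ ∈ L := by
  rw [← QuotientGroup.eq_one_iff, QuotientGroup.mk_mul, QuotientGroup.mk_mul, QuotientGroup.mk_mul,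
    QuotientGroup.mk_inv, QuotientGroup.mk_inv, mul_inv_eq_iff_eq_mul, mul_inv_eq_one,
    mul_inv_eq_iff_eq_mul]
  exact eq_comm

theorem csum_eq (τ : F → ℂ) [Fintype (IBr F L)] (x y : H) :
    csum τ L a x y = ∑ φ : IBr F L, (open Classical in if φ.1 ∈ phiSet L a x y then
      τ (tc L φ.1 x y) else 0) := by
  classical
  have h1 : csum τ L a x y = ∑ᶠ φ ∈ IBr F L, (if φ ∈ phiSet L a x y then
      τ (tc L φ x y) else 0) := by
    unfold csum
    apply finsum_congr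
    intro φ
    by_cases h : φ ∈ phiSet L a x y
    · rw [finsum_eq_if, finsum_eq_if, if_pos h, if_pos h.1]
    · rw [finsum_eq_if, finsum_eq_if, if_neg h]
      split_ifs <;> rfl
  rw [h1, ← finsum_set_coe_eq_finsum_mem, finsum_eq_sum_of_fintype]

/-- an index -/
def mkIdx (c : H ⧸ L) (φ : IBr F L)
    (h : Reg ℓ c ∧ St c φ ∧ actF (fun t : L => a t) φ.1 = φ.1) : Idx ℓ L a := ⟨(c, φ), h⟩

/-- **CL**: the counting lemma. -/
theorem cl_of_hyp (hy : Hyp ℓ F) {τ : F → ℂ} (hτ : IsLift τ) (ha : IsCl a)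
    (haL : ∀ h, h ∉ L → a h = 0) :
    (Nat.card H : ℂ) * Nat.card L * ({θ : H → F | θ ∈ IBr F H ∧ actF a θ = θ}.ncard : ℂ) =
      ∑ᶠ (x : H) (y : H) (_ : Reg ℓ (x : H ⧸ L) ∧ x * y * x⁻¹ * y⁻¹ ∈ L), csum τ L a x y := by
  classical
  let _ := idxAction hy (L := L) ha
  have := finite_idx (L := L) (a := a) hy
  have := Fintype.ofFinite (Idx ℓ L a)
  have := finite_ibr (L := L) hy
  have := Fintype.ofFinite (IBr F L)
  have := Fintype.ofFinite H
  have := Fintype.ofFinite (H ⧸ L)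
  have h1 := card_mul_finrank (uu_coc hy (L := L) (a := a) ha) τ hτ.one hτ.mul hτ.inj
  rw [finrank_monoInv_eq hy ha haL] at h1
  -- the summand
  let G : H → H → ℂ := fun x y => if Reg ℓ (x : H ⧸ L) ∧ x * y * x⁻¹ * y⁻¹ ∈ L then
    csum τ L a x y else 0
  have hR : ∑ᶠ (x : H) (y : H) (_ : Reg ℓ (x : H ⧸ L) ∧ x * y * x⁻¹ * y⁻¹ ∈ L), csum τ L a x y =
      ∑ x : H, ∑ y : H, G x y := by
    rw [finsum_eq_sum_of_fintype]
    apply Finset.sum_congr rfl
    intro x _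
    rw [finsum_eq_sum_of_fintype]
    apply Finset.sum_congr rfl
    intro y _
    rw [finsum_eq_if]
  -- the left side
  let e : H → H ⧸ L → IBr F L → ℂ := fun y c φ =>
    if h : Reg ℓ c ∧ St c φ ∧ actF (fun t : L => a t) φ.1 = φ.1 then
      (if y • (mkIdx c φ h) = mkIdx c φ h then τ (uu hy y⁻¹ (mkIdx c φ h)) else 0) else 0
  have hL : ∑ᶠ (y : H) (i : Idx ℓ L a) (_ : y • i = i), τ (uu hy y i) =
      ∑ y : H, ∑ c : H ⧸ L, ∑ φ : IBr F L, e y c φ := by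
    rw [finsum_eq_sum_of_fintype, ← Equiv.sum_comp (Equiv.inv H)]
    apply Finset.sum_congr rfl
    intro y _
    rw [finsum_eq_sum_of_fintype, ← Fintype.sum_prod_type']
    have e1 : ∀ i : Idx ℓ L a, ∑ᶠ (_ : (Equiv.inv H y) • i = i), τ (uu hy (Equiv.inv H y) i) =
        if y • i = i then τ (uu hy y⁻¹ i) else 0 := by
      intro i
      rw [finsum_eq_if]
      have : ((Equiv.inv H y) • i = i) ↔ (y • i = i) := by
        rw [Equiv.inv_apply, inv_smul_eq_iff, eq_comm]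
      simp only [this]
      rfl
    simp only [e1]
    apply Fintype.sum_of_injective (fun i : Idx ℓ L a => i.1) Subtype.val_injective
    · intro q hq
      have : ¬ (Reg ℓ q.1 ∧ St q.1 q.2 ∧ actF (fun t : L => a t) q.2.1 = q.2.1) := by
        intro h
        exact hq ⟨⟨q, h⟩, rfl⟩
      exact dif_neg this
    · intro i
      have : e y i.1.1 i.1.2 = if y • i = i then τ (uu hy y⁻¹ i) else 0 := dif_pos i.2
      exact this.symm
  have hG : ∀ x y : H, G x y = ∑ φ : IBr F L, e y (x : H ⧸ L) φ := by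
    intro x y
    by_cases hxy : Reg ℓ (x : H ⧸ L) ∧ x * y * x⁻¹ * y⁻¹ ∈ L
    · have e1 : G x y = csum τ L a x y := if_pos hxy
      rw [e1, csum_eq]
      apply Finset.sum_congr rfl
      intro φ _
      by_cases hφ : φ.1 ∈ phiSet L a x y
      · rw [if_pos hφ]
        have hh : Reg ℓ (x : H ⧸ L) ∧ St (x : H ⧸ L) φ ∧ actF (fun t : L => a t) φ.1 = φ.1 :=
          ⟨hxy.1, (st_iff hy.ibc hy.hF).2 hφ.2.2.1, hφ.2.1⟩
        have hfix : y • (mkIdx (x : H ⧸ L) φ hh) = mkIdx (x : H ⧸ L) φ hh := by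
          apply Subtype.ext
          apply Prod.ext
          · exact quot_comm.2 hxy.2
          · exact cIBr_eq_iff.2 hφ.2.2.2
        show _ = (if h : _ then _ else _)
        rw [dif_pos hh, if_pos hfix, uu_eq hy ha (mkIdx (x : H ⧸ L) φ hh) x y rfl hfix hxy.2
          hφ.2.2.1 hφ.2.2.2]
        rfl
      · rw [if_neg hφ]
        show _ = (if h : _ then _ else _)
        by_cases hh : Reg ℓ (x : H ⧸ L) ∧ St (x : H ⧸ L) φ ∧ actF (fun t : L => a t) φ.1 = φ.1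
        · rw [dif_pos hh, if_neg]
          intro hfix
          apply hφ
          have h2 := congrArg (fun q : Idx ℓ L a => q.1.2) hfix
          exact ⟨φ.2, hh.2.2, (st_iff hy.ibc hy.hF).1 hh.2.1, cIBr_eq_iff.1 h2⟩
        · rw [dif_neg hh]
    · have e1 : G x y = 0 := if_neg hxy
      rw [e1]
      symm
      apply Finset.sum_eq_zero
      intro φ _
      show (if h : _ then _ else _) = _
      by_cases hh : Reg ℓ (x : H ⧸ L) ∧ St (x : H ⧸ L) φ ∧ actF (fun t : L => a t) φ.1 = φ.1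
      · rw [dif_pos hh, if_neg]
        intro hfix
        apply hxy
        have h2 := congrArg (fun q : Idx ℓ L a => q.1.1) hfix
        exact ⟨hh.1, quot_comm.1 h2⟩
      · rw [dif_neg hh]
  rw [hR]
  have h2 : ∑ x : H, ∑ y : H, G x y = (Nat.card L : ℂ) * ∑ c : H ⧸ L, ∑ y : H, ∑ φ : IBr F L, e y c φ := by
    rw [← sum_quot (fun c => ∑ y : H, ∑ φ : IBr F L, e y c φ)]
    apply Finset.sum_congr rfl
    intro x _
    apply Finset.sum_congr rfl
    intro y _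
    exact hG x y
  rw [h2, Finset.sum_comm, ← hL, ← h1]
  ring

theorem cl (h1 : IbfStmt) (h2 : IbcStmt) (h3 : IbjStmt) (h4 : IbnStmt) (h5 : EigStmt)
    (h6 : BrtStmt) : ClStmt := by
  intro ℓ F _ hF τ hτ H _ _ L _ a ha haL
  exact cl_of_hyp ⟨hF, h1, h2, h3, h4, h5, h6⟩ hτ ha haL

end Pool.Agent.Helper58_CL
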