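import Pool.Agent.Helper94_PP.Defs

/-!
Implementers of conjugation on an irreducible matrix representation of a normal subgroup and the
twisted trace functions on a coset.
-/

open scoped BigOperators

set_option linter.unusedSectionVars false

noncomputable section

namespace Pool.Agent.Helper58_CL

open Pool.Agent.PP

variable {F : Type} [Field F] {H : Type} [Group H] {L : Subgroup H} [L.Normal]

theorem irr_commute_all {K : Type} [Group K] {n : ℕ} {ρ : K →* Matrix (Fin n) (Fin n) F}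
    (h : IsIrr ρ) {T : Matrix (Fin n) (Fin n) F} (hT : ∀ g, T * ρ g = ρ g * T)
    (A : Matrix (Fin n) (Fin n) F) : T * A = A * T := by
  have hA : A ∈ Submodule.span F (Set.range ρ) := by rw [h.2]; trivial
  induction hA using Submodule.span_induction with
  | mem x hx =>
    obtain ⟨g, rfl⟩ := hx
    exact hT g
  | zero => simp
  | add x y _ _ hx hy => rw [mul_add, hx, hy, add_mul]
  | smul a x _ hx => rw [Matrix.mul_smul, hx, Matrix.smul_mul]

/-- Schur's lemma -/
theorem irr_schur {K : Type} [Group K] {n : ℕ} {ρ : K →* Matrix (Fin n) (Fin n) F}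
    (h : IsIrr ρ) {T : Matrix (Fin n) (Fin n) F} (hT : ∀ g, T * ρ g = ρ g * T) :
    ∃ c : F, T = c • (1 : Matrix (Fin n) (Fin n) F) := by
  have h1 : T ∈ Set.range (Matrix.scalar (Fin n)) := by
    apply Matrix.mem_range_scalar_of_commute_single
    intro i j _
    exact (irr_commute_all h hT _).symm
  obtain ⟨c, hc⟩ := h1
  refine ⟨c, ?_⟩
  rw [← hc]
  ext i j
  simp [Matrix.scalar_apply, Matrix.diagonal_apply, Matrix.one_apply]

/-- A matrix `A` with `tr (A ρ(g)) = 0` for all `g` is zero. -/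
theorem irr_eq_zero_of_trace {K : Type} [Group K] {n : ℕ} {ρ : K →* Matrix (Fin n) (Fin n) F}
    (h : IsIrr ρ) {A : Matrix (Fin n) (Fin n) F} (hA : ∀ g, (A * ρ g).trace = 0) : A = 0 := by
  have h1 : ∀ B : Matrix (Fin n) (Fin n) F, (A * B).trace = 0 := by
    intro B
    have hB : B ∈ Submodule.span F (Set.range ρ) := by rw [h.2]; trivial
    induction hB using Submodule.span_induction with
    | mem x hx =>
      obtain ⟨g, rfl⟩ := hx
      exact hA g
    | zero => simp
    | add x y _ _ hx hy => rw [mul_add, Matrix.trace_add, hx, hy, add_zero]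
    | smul a x _ hx => rw [Matrix.mul_smul, Matrix.trace_smul, hx, smul_zero]
  ext i j
  have h2 := h1 (Matrix.single j i 1)
  rw [Matrix.trace_mul_single] at h2
  simpa using h2

/-- `X` implements the conjugation by `x` on the representation `ρ` of the normal subgroup -/
structure Imp {n : ℕ} (ρ : L →* Matrix (Fin n) (Fin n) F) (x : H)
    (X : Matrix (Fin n) (Fin n) F) : Prop where
  unit : IsUnit X
  eq : ∀ g : L, X * ρ g = ρ (MulAut.conjNormal x g) * X

variable {n : ℕ} {ρ : L →* Matrix (Fin n) (Fin n) F}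

theorem isUnit_rep (g : L) : IsUnit (ρ g) := (Group.isUnit g).map ρ

theorem Imp.mul {x y : H} {X Y : Matrix (Fin n) (Fin n) F} (hx : Imp ρ x X) (hy : Imp ρ y Y) :
    Imp ρ (x * y) (X * Y) := by
  refine ⟨hx.unit.mul hy.unit, fun g => ?_⟩
  rw [mul_assoc, hy.eq, ← mul_assoc, hx.eq, mul_assoc, map_mul]
  rfl

theorem Imp.coe (l : L) : Imp ρ (l : H) (ρ l) := by
  refine ⟨isUnit_rep l, fun g => ?_⟩
  rw [← map_mul, ← map_mul]
  congr 1
  ext
  simp [MulAut.conjNormal_apply]

theorem Imp.uniq (hρ : IsIrr ρ) {x : H} {X Y : Matrix (Fin n) (Fin n) F} (hx : Imp ρ x X)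
    (hy : Imp ρ x Y) : ∃ c : F, c ≠ 0 ∧ Y = c • X := by
  obtain ⟨u, hu⟩ := hx.unit
  have hT : ∀ g, ((u⁻¹).val * Y) * ρ g = ρ g * ((u⁻¹).val * Y) := by
    intro g
    rw [mul_assoc, hy.eq]
    have h1 := hx.eq g
    rw [← hu] at h1
    have h2 : (u⁻¹).val * ρ (MulAut.conjNormal x g) = ρ g * (u⁻¹).val := by
      rw [Units.inv_mul_eq_iff_eq_mul, ← mul_assoc, h1, mul_assoc, Units.mul_inv, mul_one]
    rw [← mul_assoc, h2, mul_assoc]
  obtain ⟨c, hc⟩ := irr_schur hρ hT
  have hY : Y = c • X := by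
    have h3 : (u : Matrix (Fin n) (Fin n) F) * ((u⁻¹).val * Y) = Y := by
      rw [← mul_assoc, Units.mul_inv, one_mul]
    rw [← h3, hc, hu, Matrix.mul_smul, mul_one]
  refine ⟨c, ?_, hY⟩
  rintro rfl
  rw [zero_smul] at hY
  have hn : 0 < n := hρ.1
  have h4 := hy.unit
  rw [hY] at h4
  have : Nonempty (Fin n) := ⟨⟨0, hn⟩⟩
  exact not_isUnit_zero h4

/-- change of the representation by a change of basis -/
theorem Imp.conj {x : H} {X : Matrix (Fin n) (Fin n) F} {ρ' : L →* Matrix (Fin n) (Fin n) F}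
    (P : (Matrix (Fin n) (Fin n) F)ˣ)
    (hP : ∀ g, (P : Matrix (Fin n) (Fin n) F) * ρ g = ρ' g * P) (hx : Imp ρ x X) :
    Imp ρ' x (P * X * (P⁻¹).val) := by
  refine ⟨(P.isUnit.mul hx.unit).mul P⁻¹.isUnit, fun g => ?_⟩
  have h1 : (P⁻¹).val * ρ' g = ρ g * (P⁻¹).val := by
    rw [Units.inv_mul_eq_iff_eq_mul, ← mul_assoc, hP, mul_assoc, Units.mul_inv, mul_one]
  rw [mul_assoc, h1, ← mul_assoc, mul_assoc (P : Matrix (Fin n) (Fin n) F), hx.eq, ← mul_assoc, hP]
  simp only [mul_assoc]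

/-- the conjugate representation -/
def crep (ρ : L →* Matrix (Fin n) (Fin n) F) (y : H) : L →* Matrix (Fin n) (Fin n) F :=
  ρ.comp (MulAut.conjNormal y⁻¹ : MulAut L).toMonoidHom

theorem crep_apply (y : H) (g : L) : crep ρ y g = ρ (MulAut.conjNormal y⁻¹ g) := rfl

theorem crep_irr {y : H} (h : IsIrr ρ) : IsIrr (crep ρ y) := by
  refine ⟨h.1, ?_⟩
  rw [← h.2]
  congr 1
  ext A
  constructor
  · rintro ⟨g, rfl⟩
    exact ⟨_, rfl⟩
  · rintro ⟨g, rfl⟩
    refine ⟨MulAut.conjNormal y g, ?_⟩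
    rw [crep_apply]
    congr 1
    ext
    simp

theorem Imp.crep {x : H} {X : Matrix (Fin n) (Fin n) F} (y : H) (hx : Imp ρ x X) :
    Imp (crep ρ y) (y * x * y⁻¹) X := by
  refine ⟨hx.unit, fun g => ?_⟩
  rw [crep_apply, crep_apply, hx.eq]
  congr 2
  ext
  simp [MulAut.conjNormal_apply, mul_assoc]

/-- The twisted trace function on the coset `x L` : `x l ↦ tr (X ρ(l))`, zero elsewhere. -/
def tw (ρ : L →* Matrix (Fin n) (Fin n) F) (x : H) (X : Matrix (Fin n) (Fin n) F) (h : H) : F :=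
  open Classical in if hh : x⁻¹ * h ∈ L then (X * ρ ⟨x⁻¹ * h, hh⟩).trace else 0

theorem tw_mem {x : H} {X : Matrix (Fin n) (Fin n) F} {h : H} (hh : x⁻¹ * h ∈ L) :
    tw ρ x X h = (X * ρ ⟨x⁻¹ * h, hh⟩).trace := by
  classical
  rw [tw, dif_pos hh]

theorem tw_not {x : H} {X : Matrix (Fin n) (Fin n) F} {h : H} (hh : x⁻¹ * h ∉ L) :
    tw ρ x X h = 0 := by
  classical
  rw [tw, dif_neg hh]

theorem tw_mul {x : H} {X : Matrix (Fin n) (Fin n) F} (l : L) :
    tw ρ x X (x * l) = (X * ρ l).trace := by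
  have hh : x⁻¹ * (x * (l : H)) ∈ L := by rw [inv_mul_cancel_left]; exact l.2
  rw [tw_mem hh]
  congr 3
  ext
  simp

theorem tw_smul {x : H} {X : Matrix (Fin n) (Fin n) F} (c : F) (h : H) :
    tw ρ x (c • X) h = c * tw ρ x X h := by
  by_cases hh : x⁻¹ * h ∈ L
  · rw [tw_mem hh, tw_mem hh, Matrix.smul_mul, Matrix.trace_smul, smul_eq_mul]
  · rw [tw_not hh, tw_not hh, mul_zero]

/-- the function does not depend on the representative of the coset -/
theorem tw_lift {x : H} {X : Matrix (Fin n) (Fin n) F} (l : L) (h : H) :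
    tw ρ (x * l) (X * ρ l) h = tw ρ x X h := by
  by_cases hh : x⁻¹ * h ∈ L
  · have hh' : (x * (l : H))⁻¹ * h ∈ L := by
      rw [mul_inv_rev, mul_assoc]
      exact L.mul_mem (L.inv_mem l.2) hh
    rw [tw_mem hh, tw_mem hh', mul_assoc, ← map_mul]
    congr 3
    ext
    simp [mul_assoc]
  · have hh' : (x * (l : H))⁻¹ * h ∉ L := by
      intro h1
      apply hh
      rw [mul_inv_rev, mul_assoc] at h1
      have := L.mul_mem l.2 h1
      rwa [mul_inv_cancel_left] at this
    rw [tw_not hh, tw_not hh']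

/-- change of basis does not change the function -/
theorem tw_conj {x : H} {X : Matrix (Fin n) (Fin n) F} {ρ' : L →* Matrix (Fin n) (Fin n) F}
    (P : (Matrix (Fin n) (Fin n) F)ˣ)
    (hP : ∀ g, (P : Matrix (Fin n) (Fin n) F) * ρ g = ρ' g * P) (h : H) :
    tw ρ' x (P * X * (P⁻¹).val) h = tw ρ x X h := by
  by_cases hh : x⁻¹ * h ∈ L
  · rw [tw_mem hh, tw_mem hh]
    have h1 : (P⁻¹).val * ρ' ⟨x⁻¹ * h, hh⟩ =
        ρ ⟨x⁻¹ * h, hh⟩ * (P⁻¹).val := by
      rw [Units.inv_mul_eq_iff_eq_mul, ← mul_assoc, hP, mul_assoc, Units.mul_inv, mul_one]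
    rw [mul_assoc, h1, ← mul_assoc, mul_assoc (P : Matrix (Fin n) (Fin n) F),
      Matrix.trace_mul_comm, ← mul_assoc, Units.inv_mul, one_mul]
  · rw [tw_not hh, tw_not hh]

/-- the conjugate of a twisted trace function -/
theorem tw_act {x : H} {X : Matrix (Fin n) (Fin n) F} (y h : H) :
    tw ρ x X (y⁻¹ * h * y) = tw (crep ρ y) (y * x * y⁻¹) X h := by
  have he : (y * x * y⁻¹)⁻¹ * h = y * (x⁻¹ * (y⁻¹ * h * y)) * y⁻¹ := by
    simp only [mul_inv_rev, inv_inv]
    group
  by_cases hh : x⁻¹ * (y⁻¹ * h * y) ∈ L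
  · have hh' : (y * x * y⁻¹)⁻¹ * h ∈ L := by
      rw [he]
      exact Subgroup.Normal.conj_mem inferInstance _ hh y
    rw [tw_mem hh, tw_mem hh', crep_apply]
    congr 3
    ext
    simp only [MulAut.conjNormal_apply, inv_inv, he]
    group
  · have hh' : (y * x * y⁻¹)⁻¹ * h ∉ L := by
      rw [he]
      intro h1
      apply hh
      have := Subgroup.Normal.conj_mem (inferInstance : L.Normal) _ h1 y⁻¹
      have h2 : y⁻¹ * (y * (x⁻¹ * (y⁻¹ * h * y)) * y⁻¹) * y⁻¹⁻¹ = x⁻¹ * (y⁻¹ * h * y) := by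
        group
      rwa [h2] at this
    rw [tw_not hh, tw_not hh']

/-- twisted trace functions are not zero -/
theorem tw_ne_zero (hρ : IsIrr ρ) {x : H} {X : Matrix (Fin n) (Fin n) F} (hX : IsUnit X) :
    ∃ h, tw ρ x X h ≠ 0 := by
  by_contra hcon
  push Not at hcon
  have h1 : X = 0 := irr_eq_zero_of_trace hρ (fun g => by rw [← tw_mul (x := x)]; exact hcon _)
  rw [h1] at hX
  have : Nonempty (Fin n) := ⟨⟨0, hρ.1⟩⟩
  exact not_isUnit_zero hX

/-- the value on `h u` with `u ∈ L` a commuting unipotent element -/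
theorem tw_unip {l : ℕ} [Fact l.Prime] [CharP F l] {x : H} {X : Matrix (Fin n) (Fin n) F}
    (hX : Imp ρ x X) {h : H} {u : L} {k : ℕ} (hc : h * (u : H) = (u : H) * h)
    (hu : u ^ l ^ k = 1) : tw ρ x X (h * u) = tw ρ x X h := by
  by_cases hh : x⁻¹ * h ∈ L
  · have hh' : x⁻¹ * (h * (u : H)) ∈ L := by
      rw [← mul_assoc]
      exact L.mul_mem hh u.2
    rw [tw_mem hh, tw_mem hh']
    have h0 : (⟨x⁻¹ * (h * (u : H)), hh'⟩ : L) = ⟨x⁻¹ * h, hh⟩ * u := by
      ext
      simp [mul_assoc]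
    rw [h0, map_mul, ← mul_assoc]
    set A := X * ρ ⟨x⁻¹ * h, hh⟩ with hA
    have hAi : Imp ρ h A := by
      have := hX.mul (Imp.coe (ρ := ρ) ⟨x⁻¹ * h, hh⟩)
      simpa using this
    have hcomm : A * ρ u = ρ u * A := by
      rw [hAi.eq]
      congr 2
      ext
      simp [MulAut.conjNormal_apply, hc]
    have hnil : IsNilpotent (ρ u - 1) := by
      have hchar : CharP (Matrix (Fin n) (Fin n) F) l ∨ n = 0 := by
        rcases Nat.eq_zero_or_pos n with h0 | h0
        · exact Or.inr h0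
        · left
          have : Nonempty (Fin n) := ⟨⟨0, h0⟩⟩
          infer_instance
      rcases hchar with hchar | h0
      · refine ⟨l ^ k, ?_⟩
        rw [sub_pow_char_pow_of_commute _ _ (Commute.one_right _), one_pow, ← map_pow, hu, map_one,
          sub_self]
      · subst h0
        refine ⟨1, ?_⟩
        ext i
        exact i.elim0
    have hnil2 : IsNilpotent (A * (ρ u - 1)) := by
      have hcc : Commute A (ρ u - 1) := by
        show A * (ρ u - 1) = (ρ u - 1) * A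
        rw [mul_sub, sub_mul, hcomm, mul_one, one_mul]
      exact hcc.isNilpotent_mul_left hnil
    have htr : (A * (ρ u - 1)).trace = 0 := by
      have := Matrix.isNilpotent_trace_of_isNilpotent hnil2
      exact this.eq_zero
    have : A * ρ u = A + A * (ρ u - 1) := by
      rw [mul_sub, mul_one]
      abel
    rw [this, Matrix.trace_add, htr, add_zero]
  · have hh' : x⁻¹ * (h * (u : H)) ∉ L := by
      intro h1
      apply hh
      rw [← mul_assoc] at h1
      have := L.mul_mem h1 (L.inv_mem u.2)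
      rwa [mul_inv_cancel_right] at this
    rw [tw_not hh, tw_not hh']

end Pool.Agent.Helper58_CL
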