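import Pool.Agent.Helper94_PP.StmtsKR
import Pool.Agent.Helper58_CL.Tw

/-!
The restriction of an irreducible modular character of `H` to a coset of a normal subgroup `L` is
a sum of twisted trace functions.
-/

open scoped BigOperators

set_option linter.unusedSectionVars false

noncomputable section

namespace Pool.Agent.Helper58_CL

open Pool.Agent.PP

section chosen

variable {F : Type} [Field F] {K : Type} [Group K]

/-- the degree of a chosen representation with trace `φ` -/
def dimOf (φ : IBr F K) : ℕ := φ.2.choose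

/-- a chosen representation with trace `φ` -/
def repOf (φ : IBr F K) : K →* Matrix (Fin (dimOf φ)) (Fin (dimOf φ)) F := φ.2.choose_spec.choose

theorem repOf_irr (φ : IBr F K) : IsIrr (repOf φ) := φ.2.choose_spec.choose_spec.1

theorem repOf_tr (φ : IBr F K) : tr (repOf φ) = (φ : K → F) := φ.2.choose_spec.choose_spec.2.symm

theorem ev_eq [Fintype K] {n : ℕ} (ρ : K →* Matrix (Fin n) (Fin n) F) (a : K → F) :
    ev ρ a = ∑ t, a t • ρ t := by
  rw [ev, finsum_eq_sum_of_fintype]

theorem ev_mulF [Finite K] {n : ℕ} (ρ : K →* Matrix (Fin n) (Fin n) F) (a b : K → F) :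
    ev ρ (mulF a b) = ev ρ a * ev ρ b := by
  have := Fintype.ofFinite K
  rw [ev_eq, ev_eq, ev_eq, Finset.sum_mul]
  simp only [mulF, finsum_eq_sum_of_fintype, Finset.sum_smul]
  rw [Finset.sum_comm]
  apply Finset.sum_congr rfl
  intro t _
  rw [Finset.mul_sum]
  rw [← Equiv.sum_comp (Equiv.mulLeft t)]
  apply Finset.sum_congr rfl
  intro s _
  rw [Equiv.coe_mulLeft, inv_mul_cancel_left, map_mul, Matrix.smul_mul, Matrix.mul_smul, mul_smul]

theorem trace_ev [Fintype K] {n : ℕ} (ρ : K →* Matrix (Fin n) (Fin n) F)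
    (T : Matrix (Fin n) (Fin n) F) (a : K → F) :
    (T * ev ρ a).trace = ∑ t, a t * (T * ρ t).trace := by
  rw [ev_eq, Finset.mul_sum, Matrix.trace_sum]
  apply Finset.sum_congr rfl
  intro t _
  rw [Matrix.mul_smul, Matrix.trace_smul, smul_eq_mul]

theorem ev_single [Fintype K] [DecidableEq K] {n : ℕ} (ρ : K →* Matrix (Fin n) (Fin n) F)
    (k : K) : ev ρ (Pi.single k 1) = ρ k := by
  rw [ev_eq, Finset.sum_eq_single k]
  · simp
  · intro t _ ht
    rw [Pi.single_eq_of_ne ht, zero_smul]
  · intro h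
    exact absurd (Finset.mem_univ _) h

theorem ev_sub [Finite K] {n : ℕ} (ρ : K →* Matrix (Fin n) (Fin n) F) (a b : K → F) :
    ev ρ (a - b) = ev ρ a - ev ρ b := by
  have := Fintype.ofFinite K
  rw [ev_eq, ev_eq, ev_eq, ← Finset.sum_sub_distrib]
  apply Finset.sum_congr rfl
  intro t _
  rw [Pi.sub_apply, sub_smul]

theorem ev_smul [Finite K] {n : ℕ} (ρ : K →* Matrix (Fin n) (Fin n) F) (c : F) (a : K → F) :
    ev ρ (c • a) = c • ev ρ a := by
  have := Fintype.ofFinite K
  rw [ev_eq, ev_eq, Finset.smul_sum]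
  apply Finset.sum_congr rfl
  intro t _
  rw [Pi.smul_apply, smul_eq_mul, mul_smul]

theorem ev_sum [Finite K] {n : ℕ} (ρ : K →* Matrix (Fin n) (Fin n) F) {ι : Type*} (s : Finset ι)
    (a : ι → K → F) : ev ρ (∑ i ∈ s, a i) = ∑ i ∈ s, ev ρ (a i) := by
  have := Fintype.ofFinite K
  simp only [ev_eq]
  rw [Finset.sum_comm]
  apply Finset.sum_congr rfl
  intro t _
  rw [Finset.sum_apply, Finset.sum_smul]

/-- the ideal of elements acting as zero in all irreducible representations -/
def Nil (F K : Type) [Field F] [Group K] (b : K → F) : Prop :=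
  ∀ (n : ℕ) (ρ : K →* Matrix (Fin n) (Fin n) F), IsIrr ρ → ev ρ b = 0

theorem nil_of_repOf (hC : IbcStmt) {ℓ : ℕ} (hF : GoodF ℓ F) [Finite K] {b : K → F}
    (h : ∀ φ : IBr F K, ev (repOf φ) b = 0) : Nil F K b := by
  intro n ρ hρ
  have := Fintype.ofFinite K
  let φ : IBr F K := ⟨tr ρ, n, ρ, hρ, rfl⟩
  obtain ⟨X, Y, hn, h1, h2, h3⟩ := hC ℓ F hF K n _ ρ (repOf φ) hρ (repOf_irr φ) (repOf_tr φ).symm
  have h4 : X * ev ρ b = ev (repOf φ) b * X := by
    rw [ev_eq, ev_eq, Matrix.mul_sum, Matrix.sum_mul]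
    apply Finset.sum_congr rfl
    intro t _
    rw [Matrix.mul_smul, h3, Matrix.smul_mul]
  have h5 : ev ρ b = Y * (X * ev ρ b) := by
    rw [← Matrix.mul_assoc, h2, Matrix.one_mul]
  rw [h5, h4, h φ, Matrix.zero_mul, Matrix.mul_zero]

theorem Nil.mul_left [Finite K] {b : K → F} (hb : Nil F K b) (a : K → F) : Nil F K (mulF a b) := by
  intro n ρ hρ
  rw [ev_mulF, hb n ρ hρ, mul_zero]

theorem Nil.isNilpotent (hN : IbnStmt) {ℓ : ℕ} (hF : GoodF ℓ F) [Finite K] {b : K → F}
    (hb : Nil F K b) {n : ℕ} (R : K →* Matrix (Fin n) (Fin n) F) : IsNilpotent (ev R b) := by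
  obtain ⟨k, hk⟩ := hN ℓ F hF K b hb
  have h1 : ∀ k : ℕ, ev R ((mulF b)^[k] b) = ev R b ^ (k + 1) := by
    intro k
    induction k with
    | zero => simp
    | succ k ih =>
      rw [Function.iterate_succ_apply', ev_mulF, ih, pow_succ' (ev R b) (k + 1)]
  refine ⟨k + 1, ?_⟩
  rw [← h1, hk, ev]
  simp

/-- linear independence of the matrix coefficients -/
theorem coef_indep (hJ : IbjStmt) {ℓ : ℕ} (hF : GoodF ℓ F) [Finite K] [Fintype (IBr F K)]
    (T : ∀ φ : IBr F K, Matrix (Fin (dimOf φ)) (Fin (dimOf φ)) F)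
    (h : ∀ k : K, ∑ φ : IBr F K, (T φ * repOf φ k).trace = 0) (φ : IBr F K) : T φ = 0 := by
  classical
  have := Fintype.ofFinite K
  have hinj : Function.Injective (fun φ : IBr F K => tr (repOf φ)) := by
    intro φ ψ h
    simp only [repOf_tr] at h
    exact Subtype.ext h
  have key : ∀ B : Matrix (Fin (dimOf φ)) (Fin (dimOf φ)) F, (T φ * B).trace = 0 := by
    intro B
    obtain ⟨a, ha⟩ := hJ ℓ F hF K (IBr F K) _ (fun φ => repOf φ) (fun φ => repOf_irr φ) hinj
      (Pi.single φ B)
    have h1 : ∑ k, a k * ∑ ψ : IBr F K, (T ψ * repOf ψ k).trace = 0 := by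
      apply Finset.sum_eq_zero
      intro k _
      rw [h, mul_zero]
    simp only [Finset.mul_sum] at h1
    rw [Finset.sum_comm] at h1
    simp only [← trace_ev, ha] at h1
    rw [Finset.sum_eq_single φ] at h1
    · rwa [Pi.single_eq_same] at h1
    · intro ψ _ hψ
      rw [Pi.single_eq_of_ne hψ, Matrix.mul_zero, Matrix.trace_zero]
    · intro h2
      exact absurd (Finset.mem_univ _) h2
  ext i j
  have h2 := key (Matrix.single j i 1)
  rw [Matrix.trace_mul_single] at h2
  simpa using h2

/-- a functional vanishing on the ideal is a sum of matrix coefficients -/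
theorem coef_span (hJ : IbjStmt) {ℓ : ℕ} (hF : GoodF ℓ F) [Fintype K] [Fintype (IBr F K)]
    (g : K → F) (hg : ∀ b : K → F, (∀ φ : IBr F K, ev (repOf φ) b = 0) → ∑ k, b k * g k = 0) :
    ∃ T : ∀ φ : IBr F K, Matrix (Fin (dimOf φ)) (Fin (dimOf φ)) F,
      ∀ k, g k = ∑ φ : IBr F K, (T φ * repOf φ k).trace := by
  classical
  have hinj : Function.Injective (fun φ : IBr F K => tr (repOf φ)) := by
    intro φ ψ h
    simp only [repOf_tr] at h
    exact Subtype.ext h
  have h1 : ∀ (φ : IBr F K) (i j : Fin (dimOf φ)), ∃ a : K → F, ev (repOf φ) a = Matrix.single i j 1 ∧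
      ∀ ψ, ψ ≠ φ → ev (repOf ψ) a = 0 := by
    intro φ i j
    obtain ⟨a, ha⟩ := hJ ℓ F hF K (IBr F K) _ (fun φ => repOf φ) (fun φ => repOf_irr φ) hinj
      (Pi.single φ (Matrix.single i j 1))
    refine ⟨a, ?_, ?_⟩
    · rw [ha, Pi.single_eq_same]
    · intro ψ hψ
      rw [ha, Pi.single_eq_of_ne hψ]
  choose a ha ha' using h1
  refine ⟨fun φ => Matrix.of (fun j i => ∑ k, a φ i j k * g k), ?_⟩
  intro k
  have h2 := hg (Pi.single k 1 - ∑ φ : IBr F K, ∑ i, ∑ j, repOf φ k i j • a φ i j) (by
    intro ψ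
    rw [ev_sub, ev_single, ev_sum, Finset.sum_eq_single ψ]
    · simp only [ev_sum, ev_smul, ha]
      rw [sub_eq_zero]
      conv_lhs => rw [Matrix.matrix_eq_sum_single (repOf ψ k)]
      apply Finset.sum_congr rfl
      intro i _
      apply Finset.sum_congr rfl
      intro j _
      rw [Matrix.smul_single, smul_eq_mul, mul_one]
    · intro φ _ hφ
      simp only [ev_sum, ev_smul]
      apply Finset.sum_eq_zero
      intro i _
      apply Finset.sum_eq_zero
      intro j _
      rw [ha' φ i j ψ hφ.symm, smul_zero]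
    · intro h3
      exact absurd (Finset.mem_univ _) h3)
  simp only [Pi.sub_apply, sub_mul, Finset.sum_sub_distrib, Finset.sum_apply, Pi.smul_apply,
    smul_eq_mul] at h2
  have h3 : ∑ x, (Pi.single k 1 : K → F) x * g x = g k := by
    rw [Finset.sum_eq_single k]
    · simp
    · intro x _ hx
      rw [Pi.single_eq_of_ne hx, zero_mul]
    · intro h4
      exact absurd (Finset.mem_univ _) h4
  rw [h3, sub_eq_zero] at h2
  rw [h2]
  simp only [Finset.sum_mul]
  rw [Finset.sum_comm]
  apply Finset.sum_congr rfl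
  intro φ _
  rw [Finset.sum_comm]
  have h5 : ∀ i : Fin (dimOf φ), ∑ x, ∑ j, repOf φ k i j * a φ i j x * g x =
      ∑ j, repOf φ k i j * ∑ x, a φ i j x * g x := by
    intro i
    rw [Finset.sum_comm]
    apply Finset.sum_congr rfl
    intro j _
    rw [Finset.mul_sum]
    apply Finset.sum_congr rfl
    intro x _
    ring
  simp only [h5]
  rw [Matrix.trace]
  simp only [Matrix.diag_apply, Matrix.mul_apply, Matrix.of_apply]
  rw [Finset.sum_comm]
  apply Finset.sum_congr rfl
  intro j _
  apply Finset.sum_congr rfl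
  intro i _
  ring

end chosen

variable {F : Type} [Field F] {H : Type} [Group H] {L : Subgroup H} [L.Normal]

/-- intertwiners are zero or invertible -/
theorem inter_unit {n : ℕ} {ρ : L →* Matrix (Fin n) (Fin n) F} (hρ : IsIrr ρ) {x : H}
    {T : Matrix (Fin n) (Fin n) F} (hT : ∀ g : L, T * ρ g = ρ (MulAut.conjNormal x g) * T) :
    T = 0 ∨ Imp ρ x T := by
  by_cases hu : IsUnit T
  · exact Or.inr ⟨hu, hT⟩
  · left
    have hdet : T.det = 0 := by
      by_contra hne
      exact hu ((Matrix.isUnit_iff_isUnit_det T).2 (isUnit_iff_ne_zero.2 hne))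
    obtain ⟨v, hv, hTv⟩ := Matrix.exists_mulVec_eq_zero_iff.2 hdet
    have h1 : ∀ A : Matrix (Fin n) (Fin n) F, T.mulVec (A.mulVec v) = 0 := by
      intro A
      have hA : A ∈ Submodule.span F (Set.range ρ) := by rw [hρ.2]; trivial
      induction hA using Submodule.span_induction with
      | mem x hx =>
        obtain ⟨g, rfl⟩ := hx
        rw [Matrix.mulVec_mulVec, hT, ← Matrix.mulVec_mulVec, hTv, Matrix.mulVec_zero]
      | zero => simp
      | add x y _ _ hx hy => rw [Matrix.add_mulVec, Matrix.mulVec_add, hx, hy, add_zero]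
      | smul a x _ hx => rw [Matrix.smul_mulVec, Matrix.mulVec_smul, hx, smul_zero]
    obtain ⟨i, hi⟩ : ∃ i, v i ≠ 0 := by
      by_contra hcon
      push Not at hcon
      exact hv (funext hcon)
    have h2 : ∀ j, T.mulVec (Pi.single j 1) = 0 := by
      intro j
      have h3 := h1 ((v i)⁻¹ • Matrix.single j i 1)
      have h4 : ((v i)⁻¹ • Matrix.single j i (1 : F)).mulVec v = Pi.single j 1 := by
        rw [Matrix.smul_mulVec, Matrix.single_mulVec]
        ext k
        simp only [Pi.smul_apply, smul_eq_mul, one_mul]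
        by_cases hk : k = j
        · subst hk
          simp [hi]
        · simp [hk]
      rwa [h4] at h3
    ext k j
    have h5 := congrFun (h2 j) k
    rw [Matrix.mulVec_single_one] at h5
    simpa using h5

/-- Elements of the ideal of `L` times an element of `H` have trace zero. -/
theorem nil_trace (hN : IbnStmt) {ℓ : ℕ} (hF : GoodF ℓ F) [Finite H] {N : ℕ}
    (R : H →* Matrix (Fin N) (Fin N) F) (x : H) {b : L → F} (hb : Nil F L b) :
    (R x * ev (R.comp L.subtype) b).trace = 0 := by
  have := Fintype.ofFinite L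
  set E : (L → F) → Matrix (Fin N) (Fin N) F := ev (R.comp L.subtype) with hE
  -- conjugation
  have hconj : ∀ (y : H) (b : L → F), Nil F L b →
      ∃ b' : L → F, Nil F L b' ∧ E b * R y = R y * E b' := by
    intro y b hb
    refine ⟨fun t => b (MulAut.conjNormal y t), ?_, ?_⟩
    · intro n ρ hρ
      have h1 := hb n (crep ρ y) (crep_irr hρ)
      rw [ev_eq] at h1 ⊢
      rw [← Equiv.sum_comp (MulAut.conjNormal y : MulAut L).toEquiv] at h1
      rw [← h1]
      apply Finset.sum_congr rfl
      intro t _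
      have : crep ρ y ((MulAut.conjNormal y : MulAut L).toEquiv t) = ρ t := by
        rw [crep_apply]
        congr 1
        ext
        simp [mul_assoc]
      rw [this]
      rfl
    · rw [hE, ev_eq, ev_eq, Finset.sum_mul, Finset.mul_sum]
      rw [← Equiv.sum_comp (MulAut.conjNormal y : MulAut L).toEquiv]
      apply Finset.sum_congr rfl
      intro t _
      rw [Matrix.smul_mul, Matrix.mul_smul]
      have h2 : (R.comp L.subtype) ((MulAut.conjNormal y : MulAut L).toEquiv t) * R y =
          R y * (R.comp L.subtype) t := by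
        simp only [MonoidHom.comp_apply, Subgroup.coe_subtype]
        rw [← map_mul, ← map_mul]
        congr 1
        have : (((MulAut.conjNormal y : MulAut L).toEquiv t : L) : H) = y * t * y⁻¹ := rfl
        rw [this]
        group
      rw [h2]
      rfl
  have hmulE : ∀ a b : L → F, E (mulF a b) = E a * E b := fun a b => ev_mulF _ a b
  have hpow : ∀ k : ℕ, ∃ b' : L → F, Nil F L b' ∧ (R x * E b) ^ (k + 1) = R (x ^ (k + 1)) * E b' := by
    intro k
    induction k with
    | zero => exact ⟨b, hb, by simp⟩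
    | succ k ih =>
      obtain ⟨b', hb', he⟩ := ih
      obtain ⟨b'', hb'', he2⟩ := hconj x b' hb'
      refine ⟨mulF b'' b, hb.mul_left _, ?_⟩
      rw [pow_succ, he, hmulE, ← mul_assoc, mul_assoc (R (x ^ (k + 1))), he2, pow_succ x (k + 1),
        map_mul]
      simp only [mul_assoc]
  have hcard : 0 < Nat.card H := Nat.card_pos
  obtain ⟨b', hb', he⟩ := hpow (Nat.card H - 1)
  rw [Nat.sub_add_cancel hcard, pow_card_eq_one', map_one, one_mul] at he
  obtain ⟨k, hk⟩ := hb'.isNilpotent hN hF (R.comp L.subtype)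
  have hnil : IsNilpotent (R x * E b) := by
    refine ⟨Nat.card H * k, ?_⟩
    rw [pow_mul, he]
    exact hk
  exact (Matrix.isNilpotent_trace_of_isNilpotent hnil).eq_zero

/-- The restriction of an irreducible modular character of `H` to the coset `x L`. -/
theorem decomp (hC : IbcStmt) (hJ : IbjStmt) (hN : IbnStmt) {ℓ : ℕ} (hF : GoodF ℓ F) [Finite H]
    [Fintype (IBr F L)] {N : ℕ} (R : H →* Matrix (Fin N) (Fin N) F) (x : H) :
    ∃ T : ∀ φ : IBr F L, Matrix (Fin (dimOf φ)) (Fin (dimOf φ)) F,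
      (∀ φ, T φ = 0 ∨ Imp (repOf φ) x (T φ)) ∧
      ∀ l : L, (R (x * l)).trace = ∑ φ : IBr F L, (T φ * repOf φ l).trace := by
  have := Fintype.ofFinite L
  obtain ⟨T, hT⟩ := coef_span hJ hF (fun l : L => (R (x * l)).trace) (by
    intro b hb
    have h1 := nil_trace hN hF R x (nil_of_repOf hC hF hb)
    rw [trace_ev] at h1
    rw [← h1]
    apply Finset.sum_congr rfl
    intro t _
    rw [map_mul]
    rfl)
  refine ⟨T, ?_, hT⟩
  have key : ∀ (l' : L) (φ : IBr F L), repOf φ l' * T φ - T φ * repOf φ (MulAut.conjNormal x⁻¹ l') = 0 := by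
    intro l'
    apply coef_indep hJ hF (fun φ => repOf φ l' * T φ - T φ * repOf φ (MulAut.conjNormal x⁻¹ l'))
    intro l
    have h1 := hT (l * l')
    have h2 := hT (MulAut.conjNormal x⁻¹ l' * l)
    have h3 : (R (x * ((l * l' : L) : H))).trace =
        (R (x * ((MulAut.conjNormal x⁻¹ l' * l : L) : H))).trace := by
      have e1 : R (x * ((l * l' : L) : H)) = R (x * l) * R l' := by
        rw [← map_mul]
        congr 1
        simp [mul_assoc]
      have e2 : R (x * ((MulAut.conjNormal x⁻¹ l' * l : L) : H)) = R l' * R (x * l) := by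
        rw [← map_mul]
        congr 1
        simp [mul_assoc]
      rw [e1, e2, Matrix.trace_mul_comm]
    have h1' : (R (x * ((l * l' : L) : H))).trace = ∑ φ : IBr F L, (T φ * repOf φ (l * l')).trace :=
      h1
    have h2' : (R (x * ((MulAut.conjNormal x⁻¹ l' * l : L) : H))).trace =
        ∑ φ : IBr F L, (T φ * repOf φ (MulAut.conjNormal x⁻¹ l' * l)).trace := h2
    rw [h1', h2'] at h3
    have h4 : ∀ φ : IBr F L, ((repOf φ l' * T φ - T φ * repOf φ (MulAut.conjNormal x⁻¹ l')) *
        repOf φ l).trace = (T φ * repOf φ (l * l')).trace -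
          (T φ * repOf φ (MulAut.conjNormal x⁻¹ l' * l)).trace := by
      intro φ
      rw [sub_mul, Matrix.trace_sub, map_mul, map_mul]
      congr 1
      · rw [mul_assoc, Matrix.trace_mul_comm, mul_assoc]
      · rw [mul_assoc]
    simp only [h4]
    rw [Finset.sum_sub_distrib, h3, sub_self]
  intro φ
  apply inter_unit (repOf_irr φ)
  intro g
  have h5 := key (MulAut.conjNormal x g) φ
  rw [sub_eq_zero] at h5
  rw [h5]
  congr 2
  ext
  simp [mul_assoc]

end Pool.Agent.Helper58_CL
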