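import Pool.Agent.Helper94_PP.Defs

/-!
The `ℓ'`-part of an element as a power with an exponent that depends only on the order of the group.
-/

open scoped BigOperators

set_option linter.unusedSectionVars false
set_option linter.unusedVariables false

noncomputable section

namespace Pool.Agent.Helper58_CL

open Pool.Agent.PP

/-- the exponent -/
def qe (ℓ : ℕ) (H : Type) : ℕ :=
  ((Nat.card H).factorization ℓ + 1) * Nat.totient (Nat.card H / ℓ ^ (Nat.card H).factorization ℓ)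

/-- `x ^ qq ℓ H` is the `ℓ'`-part of `x` -/
def qq (ℓ : ℕ) (H : Type) : ℕ := ℓ ^ qe ℓ H

variable {ℓ : ℕ} {H : Type} [Group H] [Finite H]

theorem compl_pos (hp : ℓ.Prime) : 0 < Nat.card H / ℓ ^ (Nat.card H).factorization ℓ :=
  Nat.ordCompl_pos ℓ (Nat.card_pos (α := H)).ne'

theorem coprime_compl (hp : ℓ.Prime) :
    Nat.Coprime ℓ (Nat.card H / ℓ ^ (Nat.card H).factorization ℓ) :=
  Nat.coprime_ordCompl hp (Nat.card_pos (α := H)).ne'

theorem proj_dvd_qq (hp : ℓ.Prime) : ℓ ^ (Nat.card H).factorization ℓ ∣ qq ℓ H := by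
  apply pow_dvd_pow
  unfold qe
  have h1 : 0 < Nat.totient (Nat.card H / ℓ ^ (Nat.card H).factorization ℓ) :=
    Nat.totient_pos.2 (compl_pos hp)
  nlinarith

theorem qq_mod (hp : ℓ.Prime) :
    qq ℓ H ≡ 1 [MOD Nat.card H / ℓ ^ (Nat.card H).factorization ℓ] := by
  unfold qq qe
  rw [mul_comm, pow_mul]
  have h1 := Nat.ModEq.pow_totient (coprime_compl (H := H) hp)
  have h2 := h1.pow ((Nat.card H).factorization ℓ + 1)
  rwa [one_pow] at h2

theorem reg_dvd (hp : ℓ.Prime) {n : ℕ} (h1 : n ∣ Nat.card H) (h2 : n.Coprime ℓ) :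
    n ∣ Nat.card H / ℓ ^ (Nat.card H).factorization ℓ := by
  have h3 : n ∣ ℓ ^ (Nat.card H).factorization ℓ *
      (Nat.card H / ℓ ^ (Nat.card H).factorization ℓ) := by
    rw [Nat.ordProj_mul_ordCompl_eq_self]
    exact h1
  exact (h2.pow_right _).dvd_of_dvd_mul_left h3

theorem pow_qq_of_reg (hp : ℓ.Prime) {K : Type} [Group K] {x : K} (hx : Reg ℓ x)
    (hd : orderOf x ∣ Nat.card H) : x ^ qq ℓ H = x := by
  have h1 : x ^ qq ℓ H = x ^ 1 := by
    rw [pow_eq_pow_iff_modEq]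
    exact (qq_mod hp).of_dvd (reg_dvd hp hd hx)
  rw [h1, pow_one]

theorem pow_qq_of_pow (hp : ℓ.Prime) {u : H} {n : ℕ} (hu : u ^ ℓ ^ n = 1) : u ^ qq ℓ H = 1 := by
  rw [← orderOf_dvd_iff_pow_eq_one] at hu ⊢
  obtain ⟨k, _, hk⟩ := (Nat.dvd_prime_pow hp).1 hu
  refine dvd_trans ?_ (proj_dvd_qq hp)
  rw [hk]
  apply pow_dvd_pow
  rw [← hp.pow_dvd_iff_le_factorization (Nat.card_pos (α := H)).ne', ← hk]
  exact orderOf_dvd_natCard u

theorem reg_pow_qq (hp : ℓ.Prime) (x : H) : Reg ℓ (x ^ qq ℓ H) := by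
  have h1 : (x ^ qq ℓ H) ^ (Nat.card H / ℓ ^ (Nat.card H).factorization ℓ) = 1 := by
    rw [← pow_mul, ← orderOf_dvd_iff_pow_eq_one]
    refine dvd_trans (orderOf_dvd_natCard x) ?_
    conv_lhs => rw [← Nat.ordProj_mul_ordCompl_eq_self (Nat.card H) ℓ]
    exact Nat.mul_dvd_mul (proj_dvd_qq hp) dvd_rfl
  have h2 := orderOf_dvd_of_pow_eq_one h1
  exact Nat.Coprime.coprime_dvd_left h2 (coprime_compl hp).symm

theorem pow_qq_qq (hp : ℓ.Prime) (x : H) : (x ^ qq ℓ H) ^ qq ℓ H = x ^ qq ℓ H :=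
  pow_qq_of_reg hp (reg_pow_qq hp x) (orderOf_dvd_natCard _)

/-- the `ℓ`-part is an `ℓ`-element -/
theorem part_pow (hp : ℓ.Prime) (x : H) : ((x ^ qq ℓ H)⁻¹ * x) ^ qq ℓ H = 1 := by
  have hc : Commute (x ^ qq ℓ H)⁻¹ x := by
    apply Commute.inv_left
    exact Commute.pow_left (Commute.refl x) _
  rw [hc.mul_pow, inv_pow, pow_qq_qq hp, inv_mul_cancel]

theorem part_mem (hp : ℓ.Prime) {L : Subgroup H} [L.Normal] {x : H} (hx : Reg ℓ (x : H ⧸ L)) :
    (x ^ qq ℓ H)⁻¹ * x ∈ L := by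
  rw [← QuotientGroup.eq, QuotientGroup.mk_pow]
  apply pow_qq_of_reg hp hx
  exact dvd_trans (orderOf_map_dvd (QuotientGroup.mk' L) x) (orderOf_dvd_natCard x)

theorem mk_pow_qq (hp : ℓ.Prime) {L : Subgroup H} [L.Normal] {x : H} (hx : Reg ℓ (x : H ⧸ L)) :
    ((x ^ qq ℓ H : H) : H ⧸ L) = x := by
  rw [QuotientGroup.eq]
  exact part_mem hp hx

theorem reg_mk {L : Subgroup H} [L.Normal] {x : H} (hx : Reg ℓ x) : Reg ℓ (x : H ⧸ L) :=
  Nat.Coprime.coprime_dvd_left (orderOf_map_dvd (QuotientGroup.mk' L) x) hx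

end Pool.Agent.Helper58_CL
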