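import Pool.Agent.Helper58_CL.Idx
import Pool.Agent.Helper58_CL.Rp

/-!
The counting lemma: first part.
-/

open scoped BigOperators

set_option linter.unusedSectionVars false
set_option linter.unusedVariables false

noncomputable section

namespace Pool.Agent.Helper58_CL

open Pool.Agent.PP

variable {F : Type} [Field F] {H : Type} [Group H] {L : Subgroup H} [L.Normal] {ℓ : ℕ} [Finite H]
  {a : H → F}

theorem finite_ibr (hy : Hyp ℓ F) : Finite (IBr F L) := (hy.ibf ℓ F hy.hF L).1.to_subtype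

theorem finite_idx (hy : Hyp ℓ F) : Finite (Idx ℓ L a) := by
  have := finite_ibr (L := L) hy
  unfold Idx
  infer_instance

theorem fi_reg (hy : Hyp ℓ F) (p : Idx ℓ L a) {g : H} (hg : Reg ℓ (g : H ⧸ L)) :
    fi p (g ^ qq ℓ H) = fi p g := by
  have hp := hy.hF.prime
  have := Fact.mk hp
  have := hy.hF.char
  have hX := XX_imp p.2.2.1
  have hm := part_mem hp hg
  have h1 := tw_unip (l := ℓ) hX (h := g ^ qq ℓ H) (u := ⟨_, hm⟩) (k := qe ℓ H)
    (by
      show g ^ qq ℓ H * ((g ^ qq ℓ H)⁻¹ * g) = ((g ^ qq ℓ H)⁻¹ * g) * g ^ qq ℓ H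
      rw [mul_inv_cancel_left, mul_assoc, ← pow_succ', pow_succ, inv_mul_cancel_left])
    (by
      apply Subtype.ext
      rw [Subgroup.coe_pow, Subgroup.coe_one]
      exact part_pow hp g)
  have h2 : g ^ qq ℓ H * (((⟨(g ^ qq ℓ H)⁻¹ * g, hm⟩ : L)) : H) = g := mul_inv_cancel_left _ _
  rw [h2] at h1
  exact h1.symm

theorem fi_off (p : Idx ℓ L a) {g : H} (hg : ¬ Reg ℓ (g : H ⧸ L)) : fi p g = 0 := by
  apply ff_not
  intro h
  apply hg
  rw [h]
  exact p.2.1

theorem isCl_restrict {a : H → F} (ha : IsCl a) : IsCl (fun t : L => a t) := by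
  intro x y
  exact ha _ _

theorem mk_mul_left (t : L) (g : H) : ((t * g : H) : H ⧸ L) = g := by
  rw [QuotientGroup.mk_mul, (QuotientGroup.eq_one_iff (t : H)).2 t.2, one_mul]

/-- the action of a class function supported on `L` on twisted trace functions -/
theorem ff_ev (ha : IsCl a) [Fintype L] {c : H ⧸ L} {φ : IBr F L} (hSt : St c φ) {w : F}
    (hw : ev (repOf φ) (fun t : L => a t) = Matrix.scalar (Fin (dimOf φ)) w) (g : H) :
    ∑ t : L, a t * ff c φ (t * g) = w * ff c φ g := by
  by_cases hg : (g : H ⧸ L) = c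
  · have hX := XX_imp hSt
    have hm : c.out⁻¹ * g ∈ L := by
      rw [← QuotientGroup.eq, QuotientGroup.out_eq', hg]
    set l : L := ⟨_, hm⟩ with hl
    have hgl : g = c.out * l := by simp [hl]
    have h1 : ∀ t : L, ff c φ (t * g) = (repOf φ t * (XX c φ * repOf φ l)).trace := by
      intro t
      have e1 : (t : H) * g = c.out * ((MulAut.conjNormal c.out⁻¹ t * l : L) : H) := by
        rw [hgl]
        simp [mul_assoc]
      rw [e1, ff_mul, map_mul, ← mul_assoc, hX.eq]
      have e2 : MulAut.conjNormal c.out (MulAut.conjNormal c.out⁻¹ t) = t := by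
        ext
        simp [mul_assoc]
      rw [e2, mul_assoc]
    simp only [h1]
    have h2 : ∑ t : L, a t * (repOf φ t * (XX c φ * repOf φ l)).trace =
        (ev (repOf φ) (fun t : L => a t) * (XX c φ * repOf φ l)).trace := by
      rw [Matrix.trace_mul_comm, trace_ev]
      apply Finset.sum_congr rfl
      intro t _
      rw [Matrix.trace_mul_comm]
    rw [h2, hw]
    have h3 : Matrix.scalar (Fin (dimOf φ)) w = w • (1 : Matrix (Fin (dimOf φ)) (Fin (dimOf φ)) F) := by
      ext i j
      simp [Matrix.scalar_apply, Matrix.diagonal_apply, Matrix.one_apply]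
    rw [h3, Matrix.smul_mul, one_mul, Matrix.trace_smul, smul_eq_mul]
    conv_rhs => rw [hgl, ff_mul]
  · rw [ff_not hg, mul_zero]
    apply Finset.sum_eq_zero
    intro t _
    rw [ff_not, mul_zero]
    rw [mk_mul_left]
    exact hg

theorem tr_ne_zero {K : Type} [Group K] {n : ℕ} {ρ : K →* Matrix (Fin n) (Fin n) F}
    (hρ : IsIrr ρ) : ∃ g, tr ρ g ≠ 0 := by
  by_contra hcon
  push Not at hcon
  have h1 : (1 : Matrix (Fin n) (Fin n) F) = 0 :=
    irr_eq_zero_of_trace hρ (fun g => by rw [one_mul]; exact hcon g)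
  have : Nonempty (Fin n) := ⟨⟨0, hρ.1⟩⟩
  exact one_ne_zero h1

theorem eq_one_of_act {K : Type} [Group K] {n : ℕ} {ρ : K →* Matrix (Fin n) (Fin n) F}
    (hρ : IsIrr ρ) {b : K → F} {w : F} (h1 : actF b (tr ρ) = w • tr ρ)
    (h2 : actF b (tr ρ) = tr ρ) : w = 1 := by
  obtain ⟨g, hg⟩ := tr_ne_zero hρ
  have h3 := congrFun (h1.symm.trans h2) g
  rw [Pi.smul_apply, smul_eq_mul] at h3
  have h4 : (w - 1) * tr ρ g = 0 := by rw [sub_mul, h3, one_mul, sub_self]
  rcases mul_eq_zero.1 h4 with h5 | h5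
  · exact sub_eq_zero.1 h5
  · exact absurd h5 hg

/-- the action of `a` on the twisted trace functions of the index set -/
theorem fi_act (hy : Hyp ℓ F) (ha : IsCl a) [Fintype L] (p : Idx ℓ L a) (g : H) :
    ∑ t : L, a t * fi p (t * g) = fi p g := by
  obtain ⟨w, hw, hw2, _⟩ := hy.eig F L _ (repOf p.1.2) (repOf_irr _) _ (isCl_restrict ha)
  have h1 : w = 1 := by
    apply eq_one_of_act (repOf_irr p.1.2) hw2
    have := p.2.2.2
    rwa [← repOf_tr] at this
  have h2 := ff_ev ha p.2.2.1 hw g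
  rw [h1, one_mul] at h2
  exact h2

/-- sums over the index set, restricted to one coset -/
theorem sum_idx [Fintype (Idx ℓ L a)] [Fintype (IBr F L)] (c : H ⧸ L) (G : Idx ℓ L a → F)
    (hG : ∀ p, p.1.1 ≠ c → G p = 0) :
    ∑ p, G p = ∑ φ : IBr F L, (open Classical in if h : Reg ℓ c ∧ St c φ ∧
      actF (fun t : L => a t) φ.1 = φ.1 then G ⟨(c, φ), h⟩ else 0) := by
  classical
  let S := {φ : IBr F L // Reg ℓ c ∧ St c φ ∧ actF (fun t : L => a t) φ.1 = φ.1}
  let e : S → Idx ℓ L a := fun s => ⟨(c, s.1), s.2⟩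
  have he : Function.Injective e := by
    intro s t h
    have h1 := congrArg (fun q : Idx ℓ L a => q.1.2) h
    exact Subtype.ext h1
  have h1 : ∑ s : S, G (e s) = ∑ p, G p := by
    apply Fintype.sum_of_injective e he
    · intro p hp
      apply hG
      intro hc
      apply hp
      subst hc
      exact ⟨⟨p.1.2, p.2⟩, rfl⟩
    · intro s
      rfl
  rw [← h1]
  apply Fintype.sum_of_injective (fun s : S => s.1) Subtype.val_injective
  · intro φ hφ
    rw [dif_neg]
    intro h
    exact hφ ⟨⟨φ, h⟩, rfl⟩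
  · intro s
    rw [dif_pos s.2]

/-- linear independence of the twisted trace functions -/
theorem fi_indep (hy : Hyp ℓ F) [Fintype (Idx ℓ L a)] (c : Idx ℓ L a → F)
    (h : ∀ g, ∑ p, c p * fi p g = 0) : c = 0 := by
  classical
  have := finite_ibr (L := L) hy
  have := Fintype.ofFinite (IBr F L)
  funext p0
  let T : ∀ φ : IBr F L, Matrix (Fin (dimOf φ)) (Fin (dimOf φ)) F := fun φ =>
    if h : Reg ℓ p0.1.1 ∧ St p0.1.1 φ ∧ actF (fun t : L => a t) φ.1 = φ.1 then
      c ⟨(p0.1.1, φ), h⟩ • XX p0.1.1 φ else 0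
  have h1 : ∀ l : L, ∑ φ : IBr F L, (T φ * repOf φ l).trace = 0 := by
    intro l
    rw [← h (p0.1.1.out * l), sum_idx p0.1.1]
    · apply Finset.sum_congr rfl
      intro φ _
      by_cases hφ : Reg ℓ p0.1.1 ∧ St p0.1.1 φ ∧ actF (fun t : L => a t) φ.1 = φ.1
      · have e1 : T φ = c ⟨(p0.1.1, φ), hφ⟩ • XX p0.1.1 φ := dif_pos hφ
        rw [dif_pos hφ, e1, Matrix.smul_mul, Matrix.trace_smul, smul_eq_mul, ← ff_mul]
        rfl
      · have e1 : T φ = 0 := dif_neg hφ
        rw [dif_neg hφ, e1, Matrix.zero_mul, Matrix.trace_zero]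
    · intro p hp
      have : fi p (p0.1.1.out * l) = 0 := by
        apply ff_not
        rw [QuotientGroup.mk_mul, QuotientGroup.out_eq', (QuotientGroup.eq_one_iff (l : H)).2 l.2,
          mul_one]
        exact fun h => hp h.symm
      rw [this, mul_zero]
  have h2 := coef_indep hy.ibj hy.hF T h1 p0.1.2
  have h3 : T p0.1.2 = c p0 • XX p0.1.1 p0.1.2 := dif_pos p0.2
  rw [h3] at h2
  by_contra hne
  have h4 : XX p0.1.1 p0.1.2 = 0 := by
    rcases smul_eq_zero.1 h2 with h5 | h5
    · exact absurd h5 hne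
    · exact h5
  have h5 := (XX_imp p0.2.2.1).unit
  rw [h4] at h5
  have : Nonempty (Fin (dimOf p0.1.2)) := ⟨⟨0, (repOf_irr p0.1.2).1⟩⟩
  exact not_isUnit_zero h5

/-- the function on `H` with given coefficients -/
def Psi [Fintype (Idx ℓ L a)] (c : Idx ℓ L a → F) : H → F :=
  fun g => ∑ p, c p * fi p (g ^ qq ℓ H)

theorem Psi_reg (hy : Hyp ℓ F) [Fintype (Idx ℓ L a)] (c : Idx ℓ L a → F) {g : H}
    (hg : Reg ℓ (g : H ⧸ L)) : Psi c g = ∑ p, c p * fi p g := by
  unfold Psi
  apply Finset.sum_congr rfl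
  intro p _
  rw [fi_reg hy p hg]

/-- invariance -/
theorem sum_conj (hy : Hyp ℓ F) (ha : IsCl a) [Fintype (Idx ℓ L a)] {c : Idx ℓ L a → F}
    (hc : letI := idxAction hy (L := L) ha; c ∈ monoInv (uu hy (L := L) (a := a))) (y g : H) :
    ∑ p, c p * fi p (y⁻¹ * g * y) = ∑ p, c p * fi p g := by
  let _ := idxAction hy (L := L) ha
  have h1 : ∀ p : Idx ℓ L a, c p * fi p (y⁻¹ * g * y) = c (y • p) * fi (y • p) g := by
    intro p
    rw [uu_spec hy ha y p g, hc y p]
    ring
  simp only [h1]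
  exact Equiv.sum_comp (MulAction.toPerm y) (fun p => c p * fi p g)

theorem Psi_mem_TT (hy : Hyp ℓ F) (ha : IsCl a) [Fintype (Idx ℓ L a)] {c : Idx ℓ L a → F}
    (hc : letI := idxAction hy (L := L) ha; c ∈ monoInv (uu hy (L := L) (a := a))) :
    Psi c ∈ TT F H ℓ := by
  constructor
  · intro x y
    unfold Psi
    have h1 := sum_conj hy ha hc y⁻¹ (x ^ qq ℓ H)
    rw [inv_inv] at h1
    have h2 : (y * x * y⁻¹) ^ qq ℓ H = y * x ^ qq ℓ H * y⁻¹ := by
      rw [conj_pow]
    rw [h2, h1]
  · rintro x y hxy ⟨n, hn⟩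
    unfold Psi
    have h2 : (x * y) ^ qq ℓ H = x ^ qq ℓ H := by
      rw [hxy.mul_pow, pow_qq_of_pow hy.hF.prime hn, mul_one]
    rw [h2]

theorem TT_reg {f : H → F} (hp : ℓ.Prime) (hf : f ∈ TT F H ℓ) (g : H) :
    f (g ^ qq ℓ H) = f g := by
  have h1 := hf.2 (g ^ qq ℓ H) ((g ^ qq ℓ H)⁻¹ * g)
    (by
      show g ^ qq ℓ H * ((g ^ qq ℓ H)⁻¹ * g) = ((g ^ qq ℓ H)⁻¹ * g) * g ^ qq ℓ H
      rw [mul_inv_cancel_left, mul_assoc, ← pow_succ', pow_succ, inv_mul_cancel_left])
    ⟨qe ℓ H, part_pow hp g⟩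
  rw [mul_inv_cancel_left] at h1
  exact h1.symm

theorem actF_eq_sum [Fintype L] (haL : ∀ h, h ∉ L → a h = 0) (f : H → F) (g : H) :
    actF a f g = ∑ t : L, a t * f (t * g) := by
  have := Fintype.ofFinite H
  rw [actF, finsum_eq_sum_of_fintype]
  symm
  apply Fintype.sum_of_injective (fun t : L => (t : H)) Subtype.val_injective
  · intro h hh
    rw [haL, zero_mul]
    intro h1
    exact hh ⟨⟨h, h1⟩, rfl⟩
  · intro t
    rfl

theorem actF_sum [Fintype H] {ι : Type*} [Fintype ι] (d : ι → F) (f : ι → H → F) (b : H → F) :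
    actF b (∑ i, d i • f i) = ∑ i, d i • actF b (f i) := by
  funext x
  simp only [actF, finsum_eq_sum_of_fintype, Finset.sum_apply, Pi.smul_apply, smul_eq_mul,
    Finset.mul_sum]
  rw [Finset.sum_comm]
  apply Finset.sum_congr rfl
  intro i _
  apply Finset.sum_congr rfl
  intro t _
  ring

/-- coordinates in the basis of modular characters -/
theorem exists_coord (hy : Hyp ℓ F) [Fintype (IBr F H)] {f : H → F} (hf : f ∈ TT F H ℓ) :
    ∃ d : IBr F H → F, f = ∑ θ, d θ • (θ : H → F) := by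
  rw [← hy.brt ℓ F hy.hF H] at hf
  have h1 : f ∈ Submodule.span F (Set.range (fun θ : IBr F H => (θ : H → F))) := by
    rw [Subtype.range_coe]
    exact hf
  rw [Submodule.mem_span_range_iff_exists_fun] at h1
  obtain ⟨d, hd⟩ := h1
  exact ⟨d, hd.symm⟩

theorem actF_mem_TT (hy : Hyp ℓ F) {b : H → F} (hb : IsCl b) {f : H → F} (hf : f ∈ TT F H ℓ) :
    actF b f ∈ TT F H ℓ := by
  have := (hy.ibf ℓ F hy.hF H).1.to_subtype
  have := Fintype.ofFinite (IBr F H)
  have := Fintype.ofFinite H
  obtain ⟨d, rfl⟩ := exists_coord hy hf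
  rw [actF_sum]
  apply Submodule.sum_mem
  intro θ _
  apply Submodule.smul_mem
  obtain ⟨w, _, hw2, _⟩ := hy.eig F H _ (repOf θ) (repOf_irr θ) b hb
  rw [repOf_tr] at hw2
  rw [hw2]
  apply Submodule.smul_mem
  rw [← hy.brt ℓ F hy.hF H]
  exact Submodule.subset_span θ.2

/-- `a` acts as the identity on `Psi c`. -/
theorem actF_Psi (hy : Hyp ℓ F) (ha : IsCl a) (haL : ∀ h, h ∉ L → a h = 0)
    [Fintype (Idx ℓ L a)] {c : Idx ℓ L a → F}
    (hc : letI := idxAction hy (L := L) ha; c ∈ monoInv (uu hy (L := L) (a := a))) :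
    actF a (Psi c) = Psi c := by
  have := Fintype.ofFinite L
  have h1 := Psi_mem_TT hy ha hc
  have h2 := actF_mem_TT hy ha h1
  funext g
  rw [← TT_reg hy.hF.prime h1, ← TT_reg hy.hF.prime h2]
  have hr : Reg ℓ ((g ^ qq ℓ H : H) : H ⧸ L) := reg_mk (reg_pow_qq hy.hF.prime g)
  rw [actF_eq_sum haL, Psi_reg hy c hr]
  have h3 : ∀ t : L, Psi c (t * g ^ qq ℓ H) = ∑ p, c p * fi p (t * g ^ qq ℓ H) := by
    intro t
    apply Psi_reg hy c
    rw [mk_mul_left]
    exact hr
  simp only [h3, Finset.mul_sum]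
  rw [Finset.sum_comm]
  apply Finset.sum_congr rfl
  intro p _
  rw [← fi_act hy ha p (g ^ qq ℓ H), Finset.mul_sum]
  apply Finset.sum_congr rfl
  intro t _
  ring

/-- the coefficients of an irreducible modular character of `H` -/
theorem exists_coef (hy : Hyp ℓ F) (ha : IsCl a) (haL : ∀ h, h ∉ L → a h = 0)
    [Fintype (Idx ℓ L a)] (θ : IBr F H) (hθ : actF a θ.1 = θ.1) :
    ∃ c : Idx ℓ L a → F,
      (letI := idxAction hy (L := L) ha; c ∈ monoInv (uu hy (L := L) (a := a))) ∧ Psi c = θ.1 := by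
  classical
  have := finite_ibr (L := L) hy
  have := Fintype.ofFinite (IBr F L)
  have := Fintype.ofFinite L
  have h1 : ∀ c : H ⧸ L, ∃ s : IBr F L → F, (∀ φ, ¬ St c φ → s φ = 0) ∧
      (∀ φ, s φ ≠ 0 → actF (fun t : L => a t) φ.1 = φ.1) ∧
      ∀ l : L, θ.1 (c.out * l) = ∑ φ, s φ * ff c φ (c.out * l) := by
    intro c
    obtain ⟨T, hT1, hT2⟩ := decomp hy.ibc hy.ibj hy.ibn hy.hF (L := L) (repOf θ) c.out
    have h2 : ∀ φ, ∃ s : F, T φ = s • XX c φ ∧ (¬ St c φ → s = 0) := by
      intro φ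
      by_cases hS : St c φ
      · rcases hT1 φ with h0 | h0
        · exact ⟨0, by rw [h0, zero_smul], fun h => absurd hS h⟩
        · obtain ⟨u, _, hu⟩ := Imp.uniq (repOf_irr φ) (XX_imp hS) h0
          exact ⟨u, hu, fun h => absurd hS h⟩
      · rcases hT1 φ with h0 | h0
        · exact ⟨0, by rw [h0, zero_smul], fun _ => rfl⟩
        · exact absurd ⟨_, h0⟩ hS
    choose s hs1 hs2 using h2
    have h3 : ∀ l : L, θ.1 (c.out * l) = ∑ φ, s φ * ff c φ (c.out * l) := by
      intro l
      have e1 : θ.1 (c.out * l) = (repOf θ (c.out * l)).trace := by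
        conv_lhs => rw [← repOf_tr θ]
        rfl
      rw [e1, hT2]
      apply Finset.sum_congr rfl
      intro φ _
      rw [hs1, Matrix.smul_mul, Matrix.trace_smul, smul_eq_mul, ff_mul]
    refine ⟨s, hs2, ?_, h3⟩
    -- the scalars of `a`
    have hw : ∀ φ : IBr F L, ∃ w : F, ev (repOf φ) (fun t : L => a t) =
        Matrix.scalar (Fin (dimOf φ)) w ∧ (w = 1 → actF (fun t : L => a t) φ.1 = φ.1) := by
      intro φ
      obtain ⟨w, hw, hw2, _⟩ := hy.eig F L _ (repOf φ) (repOf_irr _) _ (isCl_restrict ha)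
      refine ⟨w, hw, fun h => ?_⟩
      rw [repOf_tr] at hw2
      rw [hw2, h, one_smul]
    choose w hw1 hw2 using hw
    have h4 : ∀ l : L, ∑ φ, (((w φ - 1) * s φ) • XX c φ * repOf φ l).trace = 0 := by
      intro l
      have e1 := congrFun hθ (c.out * l)
      rw [actF_eq_sum haL] at e1
      have e2 : ∀ t : L, θ.1 ((t : H) * (c.out * l)) = ∑ φ, s φ * ff c φ (t * (c.out * l)) := by
        intro t
        have e3 : (t : H) * (c.out * l) = c.out * ((MulAut.conjNormal c.out⁻¹ t * l : L) : H) := by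
          simp [mul_assoc]
        rw [e3]
        exact h3 _
      simp only [e2, Finset.mul_sum] at e1
      rw [Finset.sum_comm, h3] at e1
      have e4 : ∀ φ, ∑ t : L, a t * (s φ * ff c φ (t * (c.out * l))) =
          w φ * s φ * ff c φ (c.out * l) := by
        intro φ
        by_cases hS : St c φ
        · have := ff_ev ha hS (hw1 φ) (c.out * l)
          rw [mul_comm (w φ), mul_assoc, ← this, Finset.mul_sum]
          apply Finset.sum_congr rfl
          intro t _
          ring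
        · rw [hs2 φ hS]
          simp
      simp only [e4] at e1
      have e5 : ∀ φ, (((w φ - 1) * s φ) • XX c φ * repOf φ l).trace =
          w φ * s φ * ff c φ (c.out * l) - s φ * ff c φ (c.out * l) := by
        intro φ
        rw [Matrix.smul_mul, Matrix.trace_smul, smul_eq_mul, ff_mul]
        ring
      simp only [e5]
      rw [Finset.sum_sub_distrib, e1, sub_self]
    intro φ hφ
    have h5 := coef_indep hy.ibj hy.hF (fun φ => ((w φ - 1) * s φ) • XX c φ) h4 φ
    apply hw2
    by_contra hne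
    have hS : St c φ := by
      by_contra hS
      exact hφ (hs2 φ hS)
    have h6 : XX c φ = 0 := by
      rcases smul_eq_zero.1 h5 with h7 | h7
      · rcases mul_eq_zero.1 h7 with h8 | h8
        · exact absurd (sub_eq_zero.1 h8) hne
        · exact absurd h8 hφ
      · exact h7
    have h7 := (XX_imp hS).unit
    rw [h6] at h7
    have : Nonempty (Fin (dimOf φ)) := ⟨⟨0, (repOf_irr φ).1⟩⟩
    exact not_isUnit_zero h7
  choose s hs1 hs2 hs3 using h1
  let c : Idx ℓ L a → F := fun p => s p.1.1 p.1.2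
  have h2 : ∀ g : H, Reg ℓ (g : H ⧸ L) → ∑ p, c p * fi p g = θ.1 g := by
    intro g hg
    have hm : (g : H ⧸ L).out⁻¹ * g ∈ L := by
      rw [← QuotientGroup.eq, QuotientGroup.out_eq']
    have hgl : g = (g : H ⧸ L).out * (⟨_, hm⟩ : L) := by simp
    rw [sum_idx (g : H ⧸ L)]
    · conv_rhs => rw [hgl, hs3]
      apply Finset.sum_congr rfl
      intro φ _
      rw [← hgl]
      by_cases hφ : Reg ℓ (g : H ⧸ L) ∧ St (g : H ⧸ L) φ ∧ actF (fun t : L => a t) φ.1 = φ.1
      · rw [dif_pos hφ]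
        rfl
      · rw [dif_neg hφ]
        have : s (g : H ⧸ L) φ = 0 := by
          by_contra hne
          apply hφ
          refine ⟨hg, ?_, hs2 _ _ hne⟩
          by_contra hS
          exact hne (hs1 _ _ hS)
        rw [this, zero_mul]
    · intro p hp
      have : fi p g = 0 := ff_not (fun h => hp h.symm)
      rw [this, mul_zero]
  have hθT : θ.1 ∈ TT F H ℓ := by
    rw [← hy.brt ℓ F hy.hF H]
    exact Submodule.subset_span θ.2
  refine ⟨c, ?_, ?_⟩
  · let _ := idxAction hy (L := L) ha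
    have h3 : (fun p => c (p) * 1 - c p) = fun _ : Idx ℓ L a => (0 : F) := by
      funext p
      ring
    intro y p0
    have h4 : (fun p : Idx ℓ L a => c (y⁻¹ • p) * uu hy y (y⁻¹ • p) - c p) = 0 := by
      apply fi_indep hy
      intro g
      simp only [sub_mul, Finset.sum_sub_distrib]
      by_cases hg : Reg ℓ (g : H ⧸ L)
      · rw [h2 g hg]
        have e1 : ∑ p : Idx ℓ L a, c (y⁻¹ • p) * uu hy y (y⁻¹ • p) * fi p g =
            ∑ p : Idx ℓ L a, c p * fi p (y⁻¹ * g * y) := by
          rw [← Equiv.sum_comp (MulAction.toPerm y)]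
          apply Finset.sum_congr rfl
          intro p _
          rw [uu_spec hy ha y p g]
          simp only [MulAction.toPerm_apply, inv_smul_smul]
          ring
        have hg' : Reg ℓ ((y⁻¹ * g * y : H) : H ⧸ L) := by
          have := reg_conj hg (y : H ⧸ L)⁻¹
          rw [inv_inv] at this
          exact this
        rw [e1, h2 _ hg']
        have e2 := hθT.1 g y⁻¹
        rw [inv_inv] at e2
        rw [e2, sub_self]
      · have e1 : ∀ p : Idx ℓ L a, fi p g = 0 := fun p => fi_off p hg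
        simp [e1]
    have h5 := congrFun h4 (y • p0)
    simp only [inv_smul_smul, Pi.zero_apply] at h5
    rw [sub_eq_zero] at h5
    rw [← h5, mul_comm]
  · funext g
    rw [← TT_reg hy.hF.prime hθT g, ← h2 _ (reg_mk (reg_pow_qq hy.hF.prime g))]
    rfl

/-- **The counting lemma, orbit form**: the number of irreducible modular characters of `H` on
which `a` acts as the identity is the dimension of a space of invariants. -/
theorem finrank_monoInv_eq (hy : Hyp ℓ F) (ha : IsCl a) (haL : ∀ h, h ∉ L → a h = 0) :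
    letI := idxAction hy (L := L) ha
    Module.finrank F (monoInv (uu hy (L := L) (a := a))) =
      {θ : H → F | θ ∈ IBr F H ∧ actF a θ = θ}.ncard := by
  classical
  let _ := idxAction hy (L := L) ha
  have := finite_idx (L := L) (a := a) hy
  have := Fintype.ofFinite (Idx ℓ L a)
  have := (hy.ibf ℓ F hy.hF H).1.to_subtype
  have := Fintype.ofFinite (IBr F H)
  have := Fintype.ofFinite H
  let Θ := {θ : H → F | θ ∈ IBr F H ∧ actF a θ = θ}
  have hΘ : Θ.Finite := (hy.ibf ℓ F hy.hF H).1.subset (fun θ h => h.1)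
  let PsiL : monoInv (uu hy (L := L) (a := a)) →ₗ[F] (H → F) :=
    { toFun := fun c => Psi c.1
      map_add' := by
        intro c d
        funext g
        simp only [Psi, Submodule.coe_add, Pi.add_apply, add_mul, Finset.sum_add_distrib]
      map_smul' := by
        intro r c
        funext g
        simp only [Psi, Submodule.coe_smul, Pi.smul_apply, smul_eq_mul, RingHom.id_apply,
          Finset.mul_sum, mul_assoc] }
  have hinj : Function.Injective PsiL := by
    rw [injective_iff_map_eq_zero]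
    intro c hc
    apply Subtype.ext
    apply fi_indep hy
    intro g
    by_cases hg : Reg ℓ (g : H ⧸ L)
    · rw [← Psi_reg hy c.1 hg]
      exact congrFun hc g
    · apply Finset.sum_eq_zero
      intro p _
      rw [fi_off p hg, mul_zero]
  have hrange : LinearMap.range PsiL = Submodule.span F Θ := by
    apply le_antisymm
    · rintro _ ⟨c, rfl⟩
      have h1 : Psi c.1 ∈ TT F H ℓ := Psi_mem_TT hy ha c.2
      have h2 : actF a (Psi c.1) = Psi c.1 := actF_Psi hy ha haL c.2
      obtain ⟨d, hd⟩ := exists_coord hy h1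
      have hw : ∀ θ : IBr F H, ∃ w : F, actF a θ.1 = w • θ.1 := by
        intro θ
        obtain ⟨w, _, hw2, _⟩ := hy.eig F H _ (repOf θ) (repOf_irr θ) a ha
        rw [repOf_tr] at hw2
        exact ⟨w, hw2⟩
      choose w hw using hw
      have h3 : ∑ θ : IBr F H, (d θ * (w θ - 1)) • θ.1 = 0 := by
        have e1 : actF a (Psi c.1) = ∑ θ : IBr F H, d θ • (w θ • θ.1) := by
          rw [hd, actF_sum]
          apply Finset.sum_congr rfl
          intro θ _
          rw [hw]
        rw [h2, hd] at e1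
        have e2 : ∀ θ : IBr F H, (d θ * (w θ - 1)) • θ.1 = d θ • (w θ • θ.1) - d θ • θ.1 := by
          intro θ
          rw [smul_smul, ← sub_smul]
          congr 1
          ring
        simp only [e2]
        rw [Finset.sum_sub_distrib, ← e1, sub_self]
      have h4 := Fintype.linearIndependent_iff.1 (hy.ibf ℓ F hy.hF H).2 _ h3
      show Psi c.1 ∈ _
      rw [hd]
      apply Submodule.sum_mem
      intro θ _
      by_cases h0 : d θ = 0
      · rw [h0, zero_smul]
        exact Submodule.zero_mem _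
      · apply Submodule.smul_mem
        apply Submodule.subset_span
        refine ⟨θ.2, ?_⟩
        rcases mul_eq_zero.1 (h4 θ) with h5 | h5
        · exact absurd h5 h0
        · rw [hw, sub_eq_zero.1 h5, one_smul]
    · rw [Submodule.span_le]
      rintro θ ⟨h1, h2⟩
      obtain ⟨c, hc, hc2⟩ := exists_coef hy ha haL ⟨θ, h1⟩ h2
      exact ⟨⟨c, hc⟩, hc2⟩
  have h1 : Module.finrank F (monoInv (uu hy (L := L) (a := a))) =
      Module.finrank F (Submodule.span F Θ) := by
    rw [← hrange, LinearMap.finrank_range_of_inj hinj]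
  rw [h1]
  have hli : LinearIndependent F (fun θ : Θ => (θ : H → F)) := by
    have h2 := (hy.ibf ℓ F hy.hF H).2
    exact h2.comp (fun θ : Θ => (⟨θ.1, θ.2.1⟩ : IBr F H)) (by
      intro s t h
      have := congrArg Subtype.val h
      exact Subtype.ext this)
  have : Fintype Θ := hΘ.fintype
  show _ = Θ.ncard
  rw [← Nat.card_coe_set_eq, Nat.card_eq_fintype_card]
  have h3 := finrank_span_eq_card hli
  rw [← h3, Subtype.range_coe]

end Pool.Agent.Helper58_CL
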