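import Pool.Agent.Helper58_CL.Mono
import Pool.Agent.Helper58_CL.Coef

/-!
The index set of the twisted trace functions, with its monomial action of `H`.
-/

open scoped BigOperators

set_option linter.unusedSectionVars false

noncomputable section

namespace Pool.Agent.Helper58_CL

open Pool.Agent.PP

variable {F : Type} [Field F] {H : Type} [Group H] {L : Subgroup H} [L.Normal]

/-- implementers and twisted trace functions for representations with equal traces -/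
theorem tw_change (hC : IbcStmt) {ℓ : ℕ} (hF : GoodF ℓ F) [Finite H] {n m : ℕ}
    {ρ : L →* Matrix (Fin n) (Fin n) F} {σ : L →* Matrix (Fin m) (Fin m) F} (hρ : IsIrr ρ)
    (hσ : IsIrr σ) (h : tr ρ = tr σ) {x : H} {X : Matrix (Fin n) (Fin n) F} (hX : Imp ρ x X) :
    ∃ X' : Matrix (Fin m) (Fin m) F, Imp σ x X' ∧ ∀ g, tw σ x X' g = tw ρ x X g := by
  obtain ⟨P, P', hn, h1, h2, h3⟩ := hC ℓ F hF L n m ρ σ hρ hσ h
  subst hn
  let u : (Matrix (Fin n) (Fin n) F)ˣ := ⟨P, P', h1, h2⟩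
  exact ⟨u * X * (u⁻¹).val, hX.conj u h3, fun g => tw_conj u h3 g⟩

/-- implementers exist for stable traces -/
theorem exists_imp (hC : IbcStmt) {ℓ : ℕ} (hF : GoodF ℓ F) [Finite H] {n : ℕ}
    {ρ : L →* Matrix (Fin n) (Fin n) F} (hρ : IsIrr ρ) {x : H}
    (h : ∀ l, tr ρ (MulAut.conjNormal x l) = tr ρ l) : ∃ X, Imp ρ x X := by
  have h1 : crep ρ x⁻¹ = ρ.comp (MulAut.conjNormal x : MulAut L).toMonoidHom := by
    rw [crep, inv_inv]
  have h2 : tr ρ = tr (crep ρ x⁻¹) := by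
    funext l
    rw [h1]
    exact (h l).symm
  obtain ⟨P, P', hn, h1', h2', h3⟩ := hC ℓ F hF L n n ρ (crep ρ x⁻¹) hρ (crep_irr hρ) h2
  let u : (Matrix (Fin n) (Fin n) F)ˣ := ⟨P, P', h1', h2'⟩
  refine ⟨P, u.isUnit, fun g => ?_⟩
  rw [h3, h1]
  rfl

theorem Imp.trace_eq {n : ℕ} {ρ : L →* Matrix (Fin n) (Fin n) F} {x : H}
    {X : Matrix (Fin n) (Fin n) F} (hX : Imp ρ x X) (l : L) :
    tr ρ (MulAut.conjNormal x l) = tr ρ l := by
  obtain ⟨u, rfl⟩ := hX.unit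
  have h1 : ρ (MulAut.conjNormal x l) = u * ρ l * (u⁻¹).val := by
    rw [hX.eq, mul_assoc, Units.mul_inv, mul_one]
  show (ρ (MulAut.conjNormal x l)).trace = (ρ l).trace
  rw [h1, Matrix.trace_mul_comm, ← mul_assoc, Units.inv_mul, one_mul]

/-- the conjugate of an irreducible modular character of `L` -/
def cIBr (y : H) (φ : IBr F L) : IBr F L :=
  ⟨fun l => φ.1 (MulAut.conjNormal y⁻¹ l), dimOf φ, crep (repOf φ) y, crep_irr (repOf_irr φ), by
    funext l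
    rw [← repOf_tr φ]
    rfl⟩

theorem cIBr_apply (y : H) (φ : IBr F L) (l : L) :
    (cIBr y φ).1 l = φ.1 (MulAut.conjNormal y⁻¹ l) := rfl

theorem cIBr_one (φ : IBr F L) : cIBr (1 : H) φ = φ := by
  apply Subtype.ext
  funext l
  rw [cIBr_apply]
  have h : MulAut.conjNormal (1 : H)⁻¹ l = l := by
    ext
    simp
  rw [h]

theorem cIBr_mul (y z : H) (φ : IBr F L) : cIBr (y * z) φ = cIBr y (cIBr z φ) := by
  apply Subtype.ext
  funext l
  rw [cIBr_apply, cIBr_apply, cIBr_apply]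
  have h : MulAut.conjNormal (y * z)⁻¹ l =
      MulAut.conjNormal z⁻¹ (MulAut.conjNormal y⁻¹ l) := by
    ext
    simp [mul_assoc]
  rw [h]

theorem tr_crep (y : H) (φ : IBr F L) : tr (crep (repOf φ) y) = tr (repOf (cIBr y φ)) := by
  rw [repOf_tr]
  funext l
  rw [cIBr_apply, ← repOf_tr φ]
  rfl

/-- stability of a character under a coset -/
def St (c : H ⧸ L) (φ : IBr F L) : Prop := ∃ X, Imp (repOf φ) c.out X

theorem st_mk {x : H} {φ : IBr F L} : St (x : H ⧸ L) φ ↔ ∃ X, Imp (repOf φ) x X := by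
  have h : (x : H ⧸ L).out⁻¹ * x ∈ L := by
    rw [← QuotientGroup.eq, QuotientGroup.out_eq']
  constructor
  · rintro ⟨X, hX⟩
    have h1 := hX.mul (Imp.coe (ρ := repOf φ) ⟨_, h⟩)
    rw [mul_inv_cancel_left] at h1
    exact ⟨_, h1⟩
  · rintro ⟨X, hX⟩
    have h1 := hX.mul (Imp.coe (ρ := repOf φ) (⟨_, h⟩ : L)⁻¹)
    have h2 : x * (((⟨(x : H ⧸ L).out⁻¹ * x, h⟩ : L)⁻¹ : L) : H) = (x : H ⧸ L).out := by
      simp
    rw [h2] at h1
    exact ⟨_, h1⟩

/-- The index set: `ℓ`-regular cosets and stable characters on which `a` acts as the identity. -/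
def Idx (ℓ : ℕ) (L : Subgroup H) [L.Normal] (a : H → F) : Type :=
  {p : (H ⧸ L) × IBr F L // Reg ℓ p.1 ∧ St p.1 p.2 ∧
    actF (fun t : L => a t) p.2.1 = p.2.1}

theorem reg_conj {ℓ : ℕ} {K : Type} [Group K] {x : K} (hx : Reg ℓ x) (y : K) :
    Reg ℓ (y * x * y⁻¹) := by
  unfold Reg at *
  have : orderOf (y * x * y⁻¹) = orderOf x := (MulAut.conj y).orderOf_eq x
  rwa [this]

theorem actF_conj [Finite H] {a : H → F} (ha : IsCl a) (y : H) (φ : IBr F L)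
    (h : actF (fun t : L => a t) φ.1 = φ.1) :
    actF (fun t : L => a t) (cIBr y φ).1 = (cIBr y φ).1 := by
  have := Fintype.ofFinite L
  funext x
  have h1 := congrFun h (MulAut.conjNormal y⁻¹ x)
  rw [cIBr_apply, ← h1]
  simp only [actF, finsum_eq_sum_of_fintype]
  rw [← Equiv.sum_comp (MulAut.conjNormal y : MulAut L).toEquiv]
  apply Finset.sum_congr rfl
  intro t _
  have e1 : a (((MulAut.conjNormal y : MulAut L).toEquiv t : L) : H) = a t := ha _ _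
  rw [e1, cIBr_apply]
  have e2 : MulAut.conjNormal y⁻¹ ((MulAut.conjNormal y : MulAut L).toEquiv t * x) =
      t * MulAut.conjNormal y⁻¹ x := by
    ext
    show y⁻¹ * ((y * t * y⁻¹) * x) * y⁻¹⁻¹ = _
    simp [mul_assoc]
  rw [e2]

theorem st_conj (hC : IbcStmt) {ℓ : ℕ} (hF : GoodF ℓ F) [Finite H] (y : H) {c : H ⧸ L}
    {φ : IBr F L} (h : St c φ) : St ((y : H ⧸ L) * c * (y : H ⧸ L)⁻¹) (cIBr y φ) := by
  obtain ⟨X, hX⟩ := h
  obtain ⟨X', hX', _⟩ := tw_change hC hF (crep_irr (repOf_irr φ)) (repOf_irr (cIBr y φ))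
    (tr_crep y φ) (hX.crep y)
  have h1 : ((y * c.out * y⁻¹ : H) : H ⧸ L) = (y : H ⧸ L) * c * (y : H ⧸ L)⁻¹ := by
    rw [QuotientGroup.mk_mul, QuotientGroup.mk_mul, QuotientGroup.mk_inv, QuotientGroup.out_eq']
  rw [← h1, st_mk]
  exact ⟨X', hX'⟩

/-- the hypotheses of the counting lemma -/
structure Hyp (ℓ : ℕ) (F : Type) [Field F] : Prop where
  hF : GoodF ℓ F
  ibf : IbfStmt
  ibc : IbcStmt
  ibj : IbjStmt
  ibn : IbnStmt
  eig : EigStmt
  brt : BrtStmt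

/-- the action of `H` on the index set -/
@[instance_reducible] def idxAction {ℓ : ℕ} (hy : Hyp ℓ F) [Finite H] {a : H → F} (ha : IsCl a) :
    MulAction H (Idx ℓ L a) where
  smul y p := ⟨((y : H ⧸ L) * p.1.1 * (y : H ⧸ L)⁻¹, cIBr y p.1.2), reg_conj p.2.1 _,
    st_conj hy.ibc hy.hF y p.2.2.1, actF_conj ha y _ p.2.2.2⟩
  one_smul p := by
    apply Subtype.ext
    apply Prod.ext
    · show ((1 : H) : H ⧸ L) * p.1.1 * ((1 : H) : H ⧸ L)⁻¹ = p.1.1
      simp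
    · exact cIBr_one _
  mul_smul y z p := by
    apply Subtype.ext
    apply Prod.ext
    · show ((y * z : H) : H ⧸ L) * p.1.1 * ((y * z : H) : H ⧸ L)⁻¹ =
        (y : H ⧸ L) * ((z : H ⧸ L) * p.1.1 * (z : H ⧸ L)⁻¹) * (y : H ⧸ L)⁻¹
      simp [mul_assoc]
    · exact cIBr_mul _ _ _

/-- chosen implementers -/
def XX (c : H ⧸ L) (φ : IBr F L) : Matrix (Fin (dimOf φ)) (Fin (dimOf φ)) F :=
  open Classical in if h : St c φ then h.choose else 0

theorem XX_imp {c : H ⧸ L} {φ : IBr F L} (h : St c φ) : Imp (repOf φ) c.out (XX c φ) := by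
  rw [XX, dif_pos h]
  exact h.choose_spec

/-- the twisted trace functions -/
def ff (c : H ⧸ L) (φ : IBr F L) : H → F := tw (repOf φ) c.out (XX c φ)

theorem ff_not {c : H ⧸ L} {φ : IBr F L} {h : H} (hc : (h : H ⧸ L) ≠ c) : ff c φ h = 0 := by
  apply tw_not
  intro h1
  apply hc
  rw [← QuotientGroup.eq, QuotientGroup.out_eq'] at h1
  exact h1.symm

theorem ff_mul (c : H ⧸ L) (φ : IBr F L) (l : L) :
    ff c φ (c.out * l) = (XX c φ * repOf φ l).trace := tw_mul l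

theorem ff_ne_zero {c : H ⧸ L} {φ : IBr F L} (h : St c φ) : ∃ g, ff c φ g ≠ 0 :=
  tw_ne_zero (repOf_irr φ) (XX_imp h).unit

/-- every twisted trace function of the same coset and character is a multiple -/
theorem ff_uniq (hC : IbcStmt) {ℓ : ℕ} (hF : GoodF ℓ F) [Finite H] {n : ℕ}
    {ρ : L →* Matrix (Fin n) (Fin n) F} (hρ : IsIrr ρ) {φ : IBr F L} (h : tr ρ = φ.1) {x : H}
    {X : Matrix (Fin n) (Fin n) F} (hX : Imp ρ x X) :
    ∃ u : F, u ≠ 0 ∧ ∀ g, tw ρ x X g = u * ff (x : H ⧸ L) φ g := by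
  obtain ⟨X', hX', h'⟩ := tw_change hC hF hρ (repOf_irr φ) (h.trans (repOf_tr φ).symm) hX
  have hm : (x : H ⧸ L).out⁻¹ * x ∈ L := by
    rw [← QuotientGroup.eq, QuotientGroup.out_eq']
  have h2 : x * (((⟨(x : H ⧸ L).out⁻¹ * x, hm⟩ : L)⁻¹ : L) : H) = (x : H ⧸ L).out := by
    simp
  have h1 := hX'.mul (Imp.coe (ρ := repOf φ) (⟨_, hm⟩ : L)⁻¹)
  have h3 := fun g => tw_lift (ρ := repOf φ) (x := x) (X := X') (⟨_, hm⟩ : L)⁻¹ g
  rw [h2] at h1
  rw [h2] at h3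
  obtain ⟨u, hu, he⟩ := Imp.uniq (repOf_irr φ) (XX_imp ⟨_, h1⟩) h1
  refine ⟨u, hu, fun g => ?_⟩
  rw [← h', ← h3, he, tw_smul]
  rfl

theorem ff_act (hC : IbcStmt) {ℓ : ℕ} (hF : GoodF ℓ F) [Finite H] (y : H) {c : H ⧸ L}
    {φ : IBr F L} (h : St c φ) : ∃ u : F, u ≠ 0 ∧ ∀ g,
      ff c φ (y⁻¹ * g * y) = u * ff ((y : H ⧸ L) * c * (y : H ⧸ L)⁻¹) (cIBr y φ) g := by
  obtain ⟨u, hu, he⟩ := ff_uniq hC hF (φ := cIBr y φ) (crep_irr (repOf_irr φ))
    (by rw [tr_crep, repOf_tr]) ((XX_imp h).crep y)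
  refine ⟨u, hu, fun g => ?_⟩
  have h1 : ((y * c.out * y⁻¹ : H) : H ⧸ L) = (y : H ⧸ L) * c * (y : H ⧸ L)⁻¹ := by
    rw [QuotientGroup.mk_mul, QuotientGroup.mk_mul, QuotientGroup.mk_inv, QuotientGroup.out_eq']
  rw [← h1, ← he, ← tw_act]
  rfl

section idx

variable {ℓ : ℕ} (hy : Hyp ℓ F) [Finite H] {a : H → F} (ha : IsCl a)

/-- the twisted trace function of an index -/
def fi (p : Idx ℓ L a) : H → F := ff p.1.1 p.1.2

/-- the scalars of the monomial action -/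
def uu (y : H) (p : Idx ℓ L a) : F := (ff_act hy.ibc hy.hF y p.2.2.1).choose

include ha in
theorem uu_spec (y : H) (p : Idx ℓ L a) (g : H) :
    letI := idxAction hy (L := L) ha
    fi p (y⁻¹ * g * y) = uu hy y p * fi (y • p) g :=
  (ff_act hy.ibc hy.hF y p.2.2.1).choose_spec.2 g

theorem fi_ne_zero (p : Idx ℓ L a) : ∃ g, fi p g ≠ 0 := ff_ne_zero p.2.2.1

theorem uu_coc :
    letI := idxAction hy (L := L) ha
    IsCoc (uu hy (L := L) (a := a)) := by
  let _ := idxAction hy (L := L) ha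
  constructor
  · intro p
    obtain ⟨g, hg⟩ := fi_ne_zero p
    have h1 := uu_spec hy ha 1 p g
    rw [inv_one, one_mul, mul_one, one_smul] at h1
    have h2 : (1 - uu hy 1 p) * fi p g = 0 := by
      rw [sub_mul, one_mul, ← h1, sub_self]
    rcases mul_eq_zero.1 h2 with h3 | h3
    · exact (sub_eq_zero.1 h3).symm
    · exact absurd h3 hg
  · intro y z p
    obtain ⟨g, hg⟩ := fi_ne_zero (y • z • p)
    have h1 := uu_spec hy ha (y * z) p g
    have h2 : (y * z)⁻¹ * g * (y * z) = z⁻¹ * (y⁻¹ * g * y) * z := by group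
    rw [h2, uu_spec hy ha z p, uu_spec hy ha y (z • p), mul_smul, ← mul_assoc] at h1
    have h3 := mul_right_cancel₀ hg h1
    rw [← h3, mul_comm]

end idx

end Pool.Agent.Helper58_CL
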