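import Mathlib

/-!
Invariants of a monomial representation: a finite group acts on a space of functions on a finite
set `I` through a permutation action twisted by scalars. The dimension of the space of invariants
is computed by a sum of lifted scalars over the fixed points.
-/

open scoped BigOperators

noncomputable section

namespace Pool.Agent.Helper58_CL

variable {F : Type*} [Field F] {Q : Type*} [Group Q] {I : Type*} [MulAction Q I]

/-- cocycle condition for the scalars of a monomial representation -/
def IsCoc (u : Q → I → F) : Prop :=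
  (∀ i, u 1 i = 1) ∧ ∀ y z i, u (y * z) i = u y (z • i) * u z i

theorem IsCoc.ne_zero {u : Q → I → F} (h : IsCoc u) (y : Q) (i : I) : u y i ≠ 0 := by
  intro h0
  have h1 := h.2 y⁻¹ y i
  rw [inv_mul_cancel, h.1, h0, mul_zero] at h1
  exact one_ne_zero h1

/-- the coefficient functions of invariant vectors -/
def monoInv (u : Q → I → F) : Submodule F (I → F) where
  carrier := {c | ∀ y i, c (y • i) = u y i * c i}
  add_mem' := by
    intro a b ha hb y i
    simp only [Pi.add_apply, ha y i, hb y i, mul_add]
  zero_mem' := by
    intro y i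
    simp
  smul_mem' := by
    intro r a ha y i
    simp only [Pi.smul_apply, ha y i, smul_eq_mul]
    ring

/-- good points: the stabiliser acts trivially on the line -/
def Good (u : Q → I → F) (i : I) : Prop := ∀ y : Q, y • i = i → u y i = 1

theorem good_smul {u : Q → I → F} (h : IsCoc u) {i : I} (hi : Good u i) (z : Q) :
    Good u (z • i) := by
  intro y hy
  have h1 : (z⁻¹ * y * z) • i = i := by
    rw [mul_smul, mul_smul, hy, inv_smul_smul]
  have h2 := hi _ h1
  rw [mul_assoc, h.2, h.2] at h2
  have h3 : u z⁻¹ (z • i) * u z i = 1 := by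
    rw [← h.2, inv_mul_cancel, h.1]
  rw [mul_smul, hy] at h2
  have h4 : u z⁻¹ (z • i) ≠ 0 := h.ne_zero _ _
  have h5 : u z i ≠ 0 := h.ne_zero _ _
  have h6 : u z⁻¹ (z • i) * (u y (z • i) * u z i) = u z⁻¹ (z • i) * (1 * u z i) := by
    rw [h2, one_mul, h3]
  have h7 := mul_left_cancel₀ h4 h6
  exact mul_right_cancel₀ h5 h7

theorem monoInv_bad {u : Q → I → F} {c : I → F} (hc : c ∈ monoInv u) {i : I}
    (hi : ¬ Good u i) : c i = 0 := by
  simp only [Good, not_forall] at hi
  obtain ⟨y, hy, hne⟩ := hi
  have h1 := hc y i
  rw [hy] at h1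
  have h2 : (1 - u y i) * c i = 0 := by
    rw [sub_mul, one_mul, ← h1, sub_self]
  rcases mul_eq_zero.1 h2 with h3 | h3
  · exact absurd (sub_eq_zero.1 h3).symm hne
  · exact h3

/-- good orbits -/
def GoodOrb (u : Q → I → F) : Type _ :=
  {ω : MulAction.orbitRel.Quotient Q I // ∀ i : I, (Quotient.mk _ i : MulAction.orbitRel.Quotient Q I) = ω → Good u i}

theorem mk_smul (y : Q) (i : I) :
    (Quotient.mk (MulAction.orbitRel Q I) (y • i)) = Quotient.mk (MulAction.orbitRel Q I) i :=
  Quotient.sound ⟨y, rfl⟩

theorem exists_smul_out (i : I) :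
    ∃ y : Q, y • (Quotient.mk (MulAction.orbitRel Q I) i).out = i := by
  have h : MulAction.orbitRel Q I i (Quotient.mk (MulAction.orbitRel Q I) i).out :=
    Quotient.exact (Quotient.out_eq _).symm
  obtain ⟨y, hy⟩ := h
  exact ⟨y, hy⟩

/-- a choice of an element moving the representative to the point -/
def mv (Q : Type*) [Group Q] {I : Type*} [MulAction Q I] (i : I) : Q :=
  (exists_smul_out (Q := Q) i).choose

theorem mv_spec (i : I) : mv Q i • (Quotient.mk (MulAction.orbitRel Q I) i).out = i :=
  (exists_smul_out (Q := Q) i).choose_spec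

theorem coc_eq_of_good {u : Q → I → F} (h : IsCoc u) {i : I} (hi : Good u i) {y z : Q}
    (hyz : y • i = z • i) : u y i = u z i := by
  have h1 : (z⁻¹ * y) • i = i := by rw [mul_smul, hyz, inv_smul_smul]
  have h2 := hi _ h1
  have h3 : u y i = u (z * (z⁻¹ * y)) i := by rw [mul_inv_cancel_left]
  rw [h3, h.2, h2, mul_one, h1]

/-- the invariants are the functions on the good orbits -/
def monoEquiv {u : Q → I → F} (h : IsCoc u) : monoInv u ≃ₗ[F] (GoodOrb u → F) where
  toFun c := fun ω => c.1 ω.1.out
  map_add' a b := rfl
  map_smul' r a := rfl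
  invFun d := ⟨fun i => by
      classical
      exact if hi : Good u i then
        u (mv Q i) (Quotient.mk (MulAction.orbitRel Q I) i).out *
          d ⟨Quotient.mk _ i, fun j hj => by
            obtain ⟨y, hy⟩ := Quotient.exact hj.symm
            have hy' : y • j = i := hy
            have : j = y⁻¹ • i := by rw [← hy', inv_smul_smul]
            rw [this]
            exact good_smul h hi _⟩ else 0, by
    intro y i
    classical
    by_cases hi : Good u i
    · have hyi : Good u (y • i) := good_smul h hi y
      have he := mk_smul y i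
      have hr : Good u (Quotient.mk (MulAction.orbitRel Q I) i).out := by
        have h1 : (Quotient.mk (MulAction.orbitRel Q I) i).out = (mv Q i)⁻¹ • i := by
          rw [eq_inv_smul_iff, mv_spec]
        rw [h1]
        exact good_smul h hi _
      simp only [dif_pos hi, dif_pos hyi]
      have key : u (mv Q (y • i)) (Quotient.mk (MulAction.orbitRel Q I) (y • i)).out =
          u y i * u (mv Q i) (Quotient.mk (MulAction.orbitRel Q I) i).out := by
        have h1 := mv_spec (Q := Q) (y • i)
        have h2 := mv_spec (Q := Q) i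
        rw [he] at h1 ⊢
        have h3 : u y i = u y (mv Q i • (Quotient.mk (MulAction.orbitRel Q I) i).out) := by
          rw [h2]
        rw [h3, ← h.2]
        apply coc_eq_of_good h hr
        rw [h1, mul_smul, h2]
      rw [key, mul_assoc]
      congr 3
      exact Subtype.ext he
    · have hyi : ¬ Good u (y • i) := by
        intro hg
        apply hi
        have := good_smul h hg y⁻¹
        rwa [inv_smul_smul] at this
      simp only [dif_neg hi, dif_neg hyi, mul_zero]⟩
  left_inv := by
    intro c
    apply Subtype.ext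
    funext i
    classical
    by_cases hi : Good u i
    · simp only [dif_pos hi]
      have h1 := c.2 (mv Q i) (Quotient.mk (MulAction.orbitRel Q I) i).out
      rw [mv_spec] at h1
      exact h1.symm
    · simp only [dif_neg hi]
      exact (monoInv_bad c.2 hi).symm
  right_inv := by
    intro d
    funext ω
    classical
    have ho : Quotient.mk (MulAction.orbitRel Q I) ω.1.out = ω.1 := Quotient.out_eq _
    have hg : Good u ω.1.out := ω.2 _ ho
    simp only [dif_pos hg]
    have h1 := mv_spec (Q := Q) ω.1.out
    have h2 : u (mv Q ω.1.out) (Quotient.mk (MulAction.orbitRel Q I) ω.1.out).out = 1 := by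
      have h3 : (Quotient.mk (MulAction.orbitRel Q I) ω.1.out).out = ω.1.out := by rw [ho]
      rw [h3]
      apply hg
      rw [h3] at h1
      exact h1
    rw [h2, one_mul]
    congr 1
    exact Subtype.ext ho

theorem good_out_iff {u : Q → I → F} (h : IsCoc u) (ω : MulAction.orbitRel.Quotient Q I) :
    (∀ i : I, (Quotient.mk _ i : MulAction.orbitRel.Quotient Q I) = ω → Good u i) ↔
      Good u ω.out := by
  constructor
  · intro hg
    exact hg _ (Quotient.out_eq _)
  · intro hg i hi
    have h1 : Quotient.mk (MulAction.orbitRel Q I) i = Quotient.mk _ ω.out := by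
      rw [hi]
      exact (Quotient.out_eq _).symm
    obtain ⟨y, hy⟩ := Quotient.exact h1
    have hy' : y • ω.out = i := hy
    rw [← hy']
    exact good_smul h hg y

theorem finrank_monoInv [Finite I] {u : Q → I → F} (h : IsCoc u) :
    Module.finrank F (monoInv u) = Nat.card (GoodOrb u) := by
  have : Finite (GoodOrb u) := by unfold GoodOrb; infer_instance
  have := Fintype.ofFinite (GoodOrb u)
  rw [(monoEquiv h).finrank_eq, Module.finrank_fintype_fun_eq_card, Nat.card_eq_fintype_card]

/-- the sum of the lifted scalars over a stabiliser -/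
theorem sum_stab [Finite Q] {u : Q → I → F} (h : IsCoc u) (τ : F → ℂ)
    (τ1 : τ 1 = 1) (τmul : ∀ a b, a ≠ 0 → b ≠ 0 → τ (a * b) = τ a * τ b)
    (τinj : ∀ a, a ≠ 0 → τ a = 1 → a = 1) (i : I) :
    ∑ᶠ (y : Q) (_ : y • i = i), τ (u y i) =
      (Nat.card (MulAction.stabilizer Q i) : ℂ) * (open Classical in if Good u i then 1 else 0) := by
  classical
  have := Fintype.ofFinite Q
  have hsum : ∑ᶠ (y : Q) (_ : y • i = i), τ (u y i) =
      ∑ y : MulAction.stabilizer Q i, τ (u (y : Q) i) := by
    rw [finsum_eq_sum_of_fintype]
    have h1 : ∀ y : Q, (∑ᶠ (_ : y • i = i), τ (u y i)) =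
        if y • i = i then τ (u y i) else 0 := by
      intro y
      split_ifs with hy
      · simp [hy]
      · simp [hy]
    simp only [h1]
    rw [← Finset.sum_filter]
    refine Finset.sum_subtype (Finset.univ.filter fun y : Q => y • i = i) ?_ (fun y => τ (u y i))
    intro y
    simp [MulAction.mem_stabilizer_iff]
  rw [hsum]
  split_ifs with hg
  · rw [mul_one, Finset.sum_congr rfl (g := fun _ => (1 : ℂ))]
    · simp [Nat.card_eq_fintype_card]
    · intro y _
      rw [hg _ y.2, τ1]
  · simp only [Good, not_forall] at hg
    obtain ⟨z, hz, hne⟩ := hg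
    rw [mul_zero]
    have hz0 : u z i ≠ 0 := h.ne_zero _ _
    have h2 : τ (u z i) * ∑ y : MulAction.stabilizer Q i, τ (u (y : Q) i) =
        ∑ y : MulAction.stabilizer Q i, τ (u (y : Q) i) := by
      rw [Finset.mul_sum]
      let zz : MulAction.stabilizer Q i := ⟨z, hz⟩
      rw [← Equiv.sum_comp (Equiv.mulLeft zz) (fun y : MulAction.stabilizer Q i => τ (u (y : Q) i))]
      apply Finset.sum_congr rfl
      intro y _
      have hy : (y : Q) • i = i := y.2
      have : u (((Equiv.mulLeft zz) y : MulAction.stabilizer Q i) : Q) i = u z i * u (y : Q) i := by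
        show u (z * (y : Q)) i = _
        rw [h.2, hy]
      rw [this, τmul _ _ hz0 (h.ne_zero _ _)]
    have h3 : (τ (u z i) - 1) * ∑ y : MulAction.stabilizer Q i, τ (u (y : Q) i) = 0 := by
      rw [sub_mul, h2, one_mul, sub_self]
    rcases mul_eq_zero.1 h3 with h4 | h4
    · exact absurd (τinj _ hz0 (sub_eq_zero.1 h4)) hne
    · exact h4

/-- The number of good orbits as a sum over all fixed points. -/
theorem card_mul_goodOrb [Finite Q] [Finite I] {u : Q → I → F} (h : IsCoc u) (τ : F → ℂ)
    (τ1 : τ 1 = 1) (τmul : ∀ a b, a ≠ 0 → b ≠ 0 → τ (a * b) = τ a * τ b)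
    (τinj : ∀ a, a ≠ 0 → τ a = 1 → a = 1) :
    (Nat.card Q : ℂ) * Nat.card (GoodOrb u) =
      ∑ᶠ (y : Q) (i : I) (_ : y • i = i), τ (u y i) := by
  classical
  have := Fintype.ofFinite Q
  have := Fintype.ofFinite I
  have hsw : ∑ᶠ (y : Q) (i : I) (_ : y • i = i), τ (u y i) =
      ∑ i : I, ∑ᶠ (y : Q) (_ : y • i = i), τ (u y i) := by
    rw [finsum_eq_sum_of_fintype]
    simp only [finsum_eq_sum_of_fintype]
    exact Finset.sum_comm
  rw [hsw]
  have h1 : ∀ i : I, ∑ᶠ (y : Q) (_ : y • i = i), τ (u y i) =
      (Nat.card (MulAction.stabilizer Q i) : ℂ) * (if Good u i then 1 else 0) := fun i =>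
    sum_stab h τ τ1 τmul τinj i
  simp only [h1]
  have : Fintype (MulAction.orbitRel.Quotient Q I) := Fintype.ofFinite _
  have h2 : ∑ i : I, (Nat.card (MulAction.stabilizer Q i) : ℂ) * (if Good u i then 1 else 0) =
      ∑ ω : MulAction.orbitRel.Quotient Q I,
        ∑ i ∈ Finset.univ.filter (fun i : I => (Quotient.mk _ i :
          MulAction.orbitRel.Quotient Q I) = ω),
          (Nat.card (MulAction.stabilizer Q i) : ℂ) * (if Good u i then 1 else 0) := by
    rw [Finset.sum_fiberwise]
  rw [h2]
  have h3 : ∀ ω : MulAction.orbitRel.Quotient Q I,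
      ∑ i ∈ Finset.univ.filter (fun i : I => (Quotient.mk _ i :
          MulAction.orbitRel.Quotient Q I) = ω),
          (Nat.card (MulAction.stabilizer Q i) : ℂ) * (if Good u i then 1 else 0) =
        (Nat.card Q : ℂ) * (if Good u ω.out then 1 else 0) := by
    intro ω
    have h4 : ∀ i ∈ Finset.univ.filter (fun i : I => (Quotient.mk _ i :
          MulAction.orbitRel.Quotient Q I) = ω),
        (Nat.card (MulAction.stabilizer Q i) : ℂ) * (if Good u i then 1 else 0) =
        (Nat.card (MulAction.stabilizer Q ω.out) : ℂ) * (if Good u ω.out then 1 else 0) := by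
      intro i hi
      simp only [Finset.mem_filter, Finset.mem_univ, true_and] at hi
      have h5 : Quotient.mk (MulAction.orbitRel Q I) i = Quotient.mk _ ω.out := by
        rw [hi]
        exact (Quotient.out_eq _).symm
      obtain ⟨y, hy⟩ := Quotient.exact h5
      have hy' : y • ω.out = i := hy
      have hgi : Good u i ↔ Good u ω.out := by
        constructor
        · intro hg
          have := good_smul h hg y⁻¹
          rwa [← hy', inv_smul_smul] at this
        · intro hg
          rw [← hy']
          exact good_smul h hg y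
      have hcard : Nat.card (MulAction.stabilizer Q i) =
          Nat.card (MulAction.stabilizer Q ω.out) := by
        rw [← hy']
        exact Nat.card_congr
          (MulAction.stabilizerEquivStabilizer (g := y) (a := ω.out) (b := y • ω.out)
            rfl).symm.toEquiv
      simp only [hgi, hcard]
    rw [Finset.sum_congr rfl h4, Finset.sum_const, nsmul_eq_mul]
    have hcount : ((Finset.univ.filter (fun i : I => (Quotient.mk _ i :
          MulAction.orbitRel.Quotient Q I) = ω)).card : ℕ) *
        Nat.card (MulAction.stabilizer Q ω.out) = Nat.card Q := by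
      have h6 : (Finset.univ.filter (fun i : I => (Quotient.mk _ i :
          MulAction.orbitRel.Quotient Q I) = ω)).card = Nat.card (MulAction.orbit Q ω.out) := by
        rw [Nat.card_eq_fintype_card, ← Set.toFinset_card]
        congr 1
        ext i
        simp only [Finset.mem_filter, Finset.mem_univ, true_and, Set.mem_toFinset]
        constructor
        · intro hi
          have h5 : Quotient.mk (MulAction.orbitRel Q I) i = Quotient.mk _ ω.out := by
            rw [hi]
            exact (Quotient.out_eq _).symm
          exact Quotient.exact h5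
        · intro hi
          have h7 : Quotient.mk (MulAction.orbitRel Q I) i = Quotient.mk _ ω.out :=
            Quotient.sound hi
          rw [h7]
          exact Quotient.out_eq _
      rw [h6]
      have := MulAction.card_orbit_mul_card_stabilizer_eq_card_group Q ω.out
      rw [Nat.card_eq_fintype_card, Nat.card_eq_fintype_card, Nat.card_eq_fintype_card]
      exact this
    rw [← mul_assoc, ← Nat.cast_mul, hcount]
  rw [Finset.sum_congr rfl (fun ω _ => h3 ω), ← Finset.mul_sum]
  congr 1
  have h8 : Nat.card (GoodOrb u) = (Finset.univ.filter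
      (fun ω : MulAction.orbitRel.Quotient Q I => Good u ω.out)).card := by
    rw [← Fintype.card_subtype, ← Nat.card_eq_fintype_card]
    apply Nat.card_congr
    exact Equiv.subtypeEquivRight (fun ω => good_out_iff h ω)
  rw [h8, Finset.card_eq_sum_ones, Finset.sum_filter]
  push_cast
  apply Finset.sum_congr rfl
  intro ω _
  split_ifs <;> simp

/-- **Monomial representations**: dimension of the invariants as a sum over fixed points. -/
theorem card_mul_finrank [Finite Q] [Finite I] {u : Q → I → F} (h : IsCoc u) (τ : F → ℂ)
    (τ1 : τ 1 = 1) (τmul : ∀ a b, a ≠ 0 → b ≠ 0 → τ (a * b) = τ a * τ b)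
    (τinj : ∀ a, a ≠ 0 → τ a = 1 → a = 1) :
    (Nat.card Q : ℂ) * Module.finrank F (monoInv u) =
      ∑ᶠ (y : Q) (i : I) (_ : y • i = i), τ (u y i) := by
  rw [finrank_monoInv h]
  exact card_mul_goodOrb h τ τ1 τmul τinj

end Pool.Agent.Helper58_CL
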